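import Mathlib

/-!
Maximal well-ordered chains of `(ℕ → ℤ, ≺)`, `x ≺ y` iff `y - x → ∞`, and the tree of chains.
-/

namespace Pool.Agent.H.MP_906480_an

open Filter Topology

/-- Functions `ℕ → ℤ`. -/
abbrev Fn := ℕ → ℤ

/-- `x ≺ y` iff `y - x → ∞`. -/
def Prec (x y : Fn) : Prop := ∀ k : ℤ, ∀ᶠ n in atTop, x n + k ≤ y n

theorem Prec.irrefl (x : Fn) : ¬ Prec x x := by
  intro h
  obtain ⟨n, hn⟩ := (h 1).exists
  omega

theorem Prec.trans {x y z : Fn} (h : Prec x y) (h' : Prec y z) : Prec x z := by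
  intro k
  filter_upwards [h k, h' 0] with n h1 h2
  omega

theorem prec_neg_iff {x y : Fn} : Prec x (-y) ↔ Prec y (-x) := by
  constructor <;>
  · intro h k
    filter_upwards [h k] with n hn
    simp only [Pi.neg_apply] at hn ⊢
    omega

theorem neg_prec_iff {x y : Fn} : Prec (-x) y ↔ Prec (-y) x := by
  constructor <;>
  · intro h k
    filter_upwards [h k] with n hn
    simp only [Pi.neg_apply] at hn ⊢
    omega

theorem neg_prec_neg_iff {x y : Fn} : Prec (-x) (-y) ↔ Prec y x := by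
  constructor <;>
  · intro h k
    filter_upwards [h k] with n hn
    simp only [Pi.neg_apply] at hn ⊢
    omega

/-- Upper bounds. -/
def UB (A : Set Fn) : Set Fn := {u | ∀ a ∈ A, Prec a u}

/-- The greedy predicate. -/
noncomputable def inW (A : Set Fn) : Fn → Prop :=
  (WellOrderingRel.isWellOrder (α := Fn)).wf.fix
    (fun w ih => ∀ w' (h : WellOrderingRel w' w), w' ∈ UB A → ih w' h → Prec w w')

theorem inW_iff (A : Set Fn) (w : Fn) :
    inW A w ↔ ∀ w', WellOrderingRel w' w → w' ∈ UB A → inW A w' → Prec w w' := by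
  unfold inW
  rw [WellFounded.fix_eq]

/-- A maximal reverse well-ordered chain of upper bounds of `A`. -/
noncomputable def W (A : Set Fn) : Set Fn := {w | w ∈ UB A ∧ inW A w}

theorem W_ub {A : Set Fn} {w a : Fn} (hw : w ∈ W A) (ha : a ∈ A) : Prec a w := hw.1 a ha

theorem W_lt {A : Set Fn} {w w' : Fn} (hw : w ∈ W A) (hw' : w' ∈ W A)
    (h : WellOrderingRel w' w) : Prec w w' :=
  (inW_iff A w).1 hw.2 w' h hw'.1 hw'.2

theorem W_max {A : Set Fn} {u : Fn} (hu : ∀ a ∈ A, Prec a u) : ∃ w ∈ W A, ¬ Prec u w := by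
  by_contra hcon
  push Not at hcon
  have h1 : inW A u := by
    rw [inW_iff]
    intro w' _ h2 h3
    exact hcon w' ⟨h2, h3⟩
  exact Prec.irrefl u (hcon u ⟨hu, h1⟩)

theorem W_trich {A : Set Fn} {w w' : Fn} (hw : w ∈ W A) (hw' : w' ∈ W A) :
    w = w' ∨ Prec w w' ∨ Prec w' w := by
  rcases trichotomous_of WellOrderingRel w w' with h | h | h
  · exact Or.inr (Or.inr (W_lt hw' hw h))
  · exact Or.inl h
  · exact Or.inr (Or.inl (W_lt hw hw' h))

theorem W_rel {A : Set Fn} {w w' : Fn} (hw : w ∈ W A) (hw' : w' ∈ W A) (h : Prec w w') :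
    WellOrderingRel w' w := by
  rcases trichotomous_of WellOrderingRel w w' with h1 | h1 | h1
  · exact absurd (h.trans (W_lt hw' hw h1)) (Prec.irrefl w)
  · subst h1
    exact absurd h (Prec.irrefl w)
  · exact h1

/-- Left part of the cut attached to a list of functions (last choice first). -/
noncomputable def Aset : List Fn → Set Fn
  | [] => ∅
  | x :: σ => {a | -a ∈ W (Aset σ) ∧ Prec a x}

/-- The chain attached to a list. -/
noncomputable def X (σ : List Fn) : Set Fn := {x | -x ∈ W (Aset σ)}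

theorem Aset_nil : Aset [] = ∅ := by simp [Aset]

theorem mem_Aset_cons {x : Fn} {σ : List Fn} {a : Fn} :
    a ∈ Aset (x :: σ) ↔ a ∈ X σ ∧ Prec a x := by
  simp [Aset, X]

theorem neg_mem_X {σ : List Fn} {w : Fn} : -w ∈ X σ ↔ w ∈ W (Aset σ) := by
  simp [X]

theorem X_trich {σ : List Fn} {x y : Fn} (hx : x ∈ X σ) (hy : y ∈ X σ) :
    x = y ∨ Prec x y ∨ Prec y x := by
  rcases W_trich (A := Aset σ) hx hy with h | h | h
  · exact Or.inl (neg_injective h)
  · exact Or.inr (Or.inr (neg_prec_neg_iff.1 h))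
  · exact Or.inr (Or.inl (neg_prec_neg_iff.1 h))

/-- Nonempty subsets of `X σ` have minimal elements. -/
theorem X_min {σ : List Fn} {S : Set Fn} (hS : S ⊆ X σ) (hne : S.Nonempty) :
    ∃ x ∈ S, ∀ y ∈ S, ¬ Prec y x := by
  have hwf := (WellOrderingRel.isWellOrder (α := Fn)).wf
  have hne' : ((fun x : Fn => -x) '' S).Nonempty := hne.image _
  have hm := hwf.min_mem _ hne'
  obtain ⟨x, hx, hxm⟩ := hm
  refine ⟨x, hx, fun y hy hyx => ?_⟩
  have h1 : WellOrderingRel (-y) (-x) :=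
    W_rel (A := Aset σ) (hS hx) (hS hy) (neg_prec_neg_iff.2 hyx)
  have h2 := hwf.not_lt_min ((fun x : Fn => -x) '' S) (x := -y) ⟨y, hy, rfl⟩
  rw [← hxm] at h2
  exact h2 h1

theorem X_barrier {σ : List Fn} {u : Fn} (h1 : ∀ x ∈ X σ, Prec x u)
    (h2 : ∀ a ∈ Aset σ, Prec u (-a)) : False := by
  obtain ⟨w, hw, hw2⟩ := W_max (A := Aset σ) (u := -u) (fun a ha => prec_neg_iff.1 (h2 a ha))
  exact hw2 (neg_prec_iff.1 (h1 (-w) (neg_mem_X.2 hw)))

theorem X_prec_neg {σ : List Fn} {x a : Fn} (hx : x ∈ X σ) (ha : a ∈ Aset σ) : Prec x (-a) := by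
  have := W_ub (A := Aset σ) hx ha
  exact prec_neg_iff.1 this

end Pool.Agent.H.MP_906480_an
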