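import Pool.Agent.H.MP_906480_an.Kill

/-!
Coding of the tree of chains by points of `ℕ → Bool`, and the family of covers.
-/

namespace Pool.Agent.H.MP_906480_an

open Filter Topology MeasureTheory

/-- The compact space of branches. -/
abbrev Om := ℕ → Bool

/-- Coordinates. -/
noncomputable def enc : ℕ × ℕ × ℤ ≃ ℕ := Denumerable.eqv _

/-- The entry at position `i`, counted from the end of the list. -/
def entry : List Fn → ℕ → Option Fn
  | [], _ => none
  | x :: σ, i => if i = σ.length then some x else entry σ i

/-- `v` is a value at `n` of the `i`-th function coded by `ω`. -/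
def HasBit (ω : Om) (i n : ℕ) (v : ℤ) : Prop := ω (enc (i, n, v)) = true

open Classical in
/-- The code of a list. -/
noncomputable def code (σ : List Fn) : Om := fun j =>
  decide (∃ x, entry σ (enc.symm j).1 = some x ∧ x (enc.symm j).2.1 = (enc.symm j).2.2)

theorem hasBit_code {σ : List Fn} {i n : ℕ} {v : ℤ} :
    HasBit (code σ) i n v ↔ ∃ x, entry σ i = some x ∧ x n = v := by
  simp [HasBit, code]

theorem om_ext {ω ω' : Om} (h : ∀ i n v, HasBit ω i n v ↔ HasBit ω' i n v) : ω = ω' := by
  funext j
  obtain ⟨⟨i, n, v⟩, rfl⟩ := enc.surjective j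
  have := h i n v
  simp only [HasBit] at this
  cases h1 : ω (enc (i, n, v)) <;> cases h2 : ω' (enc (i, n, v)) <;> simp_all

theorem entry_none {σ : List Fn} {i : ℕ} (h : σ.length ≤ i) : entry σ i = none := by
  induction σ with
  | nil => rfl
  | cons x σ ih =>
    simp only [List.length_cons] at h
    simp only [entry]
    rw [if_neg (by omega)]
    exact ih (by omega)

theorem entry_some {σ : List Fn} {i : ℕ} (h : i < σ.length) : ∃ x, entry σ i = some x := by
  induction σ with
  | nil => simp at h
  | cons x σ ih =>
    simp only [List.length_cons] at h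
    simp only [entry]
    by_cases h1 : i = σ.length
    · exact ⟨x, if_pos h1⟩
    · rw [if_neg h1]
      exact ih (by omega)

theorem entry_append {ρ σ : List Fn} {i : ℕ} (h : i < σ.length) :
    entry (ρ ++ σ) i = entry σ i := by
  induction ρ with
  | nil => rfl
  | cons x ρ ih =>
    simp only [List.cons_append, entry, List.length_append]
    rw [if_neg (by omega)]
    exact ih

theorem eq_append_of_entry {σ τ : List Fn} (h : ∀ i < σ.length, entry τ i = entry σ i) :
    ∃ ρ, τ = ρ ++ σ := by
  induction τ with
  | nil =>
    cases σ with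
    | nil => exact ⟨[], rfl⟩
    | cons x σ =>
      exfalso
      have h1 := h σ.length (by simp)
      simp [entry] at h1
  | cons y τ ih =>
    by_cases hlen : σ.length ≤ τ.length
    · obtain ⟨ρ, hρ⟩ := ih (by
        intro i hi
        rw [← h i hi]
        simp only [entry]
        rw [if_neg (by omega)])
      exact ⟨y :: ρ, by simp [hρ]⟩
    · push Not at hlen
      by_cases hlen2 : σ.length = τ.length + 1
      · -- equal lengths
        clear ih
        refine ⟨[], ?_⟩
        simp only [List.nil_append]
        clear hlen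
        induction σ generalizing τ y with
        | nil => simp at hlen2
        | cons x σ ih =>
          simp only [List.length_cons, add_left_inj] at hlen2
          have h1 := h σ.length (by simp)
          simp only [entry] at h1
          have hxy : y = x := by simpa [hlen2] using h1
          subst hxy
          congr 1
          cases σ with
          | nil =>
            simp at hlen2
            exact List.length_eq_zero_iff.1 hlen2.symm
          | cons x' σ' =>
            cases τ with
            | nil => simp at hlen2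
            | cons y' τ' =>
              apply ih
              · intro i hi
                have h2 := h i (by simp only [List.length_cons] at hi ⊢; omega)
                simp only [List.length_cons] at hi hlen2
                have e1 : i ≠ τ'.length + 1 := by omega
                have e2 : i ≠ σ'.length + 1 := by omega
                simp only [entry, List.length_cons, if_neg e1, if_neg e2] at h2 ⊢
                exact h2
              · exact hlen2
      · exfalso
        have h1 := h (τ.length + 1) (by omega)
        rw [entry_none (by simp)] at h1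
        obtain ⟨x, hx⟩ := entry_some (σ := σ) (i := τ.length + 1) (by omega)
        rw [hx] at h1
        simp at h1

theorem code_injective : Function.Injective code := by
  intro σ τ h
  have hent : ∀ i, entry σ i = entry τ i := by
    intro i
    have hb : ∀ n v, (∃ x, entry σ i = some x ∧ x n = v) ↔ ∃ x, entry τ i = some x ∧ x n = v := by
      intro n v
      rw [← hasBit_code, ← hasBit_code, h]
    cases hσ : entry σ i with
    | none =>
      cases hτ : entry τ i with
      | none => rfl
      | some y =>
        have := (hb 0 (y 0)).2 ⟨y, hτ, rfl⟩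
        rw [hσ] at this
        simp at this
    | some x =>
      have h0 := fun n => (hb n (x n)).1 ⟨x, hσ, rfl⟩
      obtain ⟨y, hy, _⟩ := h0 0
      rw [hy]
      congr 1
      funext n
      obtain ⟨y', hy', hyn⟩ := h0 n
      rw [hy] at hy'
      simp only [Option.some.injEq] at hy'
      rw [hy']
      exact hyn.symm
  obtain ⟨ρ, hρ⟩ := eq_append_of_entry (σ := σ) (τ := τ) (fun i _ => (hent i).symm)
  obtain ⟨ρ', hρ'⟩ := eq_append_of_entry (σ := τ) (τ := σ) (fun i _ => hent i)
  have h1 : ρ.length + σ.length = τ.length := by rw [hρ]; simp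
  have h2 : ρ'.length + τ.length = σ.length := by
    have := congrArg List.length hρ'
    simp at this
    omega
  have h3 : ρ = [] := List.length_eq_zero_iff.1 (by omega)
  rw [hρ, h3]
  rfl

/-- Valid lists: each entry belongs to the chain attached to the rest. -/
def Valid : List Fn → Prop
  | [] => True
  | x :: σ => x ∈ X σ ∧ Valid σ

theorem Valid.of_append {ρ σ : List Fn} (h : Valid (ρ ++ σ)) : Valid σ := by
  induction ρ with
  | nil => exact h
  | cons x ρ ih => exact ih h.2

/-- The points agreeing with `code σ` on the first `σ.length` positions. -/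
def E (σ : List Fn) : Set Om :=
  {ω | ∀ i < σ.length, ∀ n v, HasBit ω i n v ↔ HasBit (code σ) i n v}

/-- Position `i` is empty. -/
def Inact (i : ℕ) : Set Om := {ω | ∀ v, ¬ HasBit ω i 0 v}

theorem append_of_mem_E {σ τ : List Fn} (h : code τ ∈ E σ) : ∃ ρ, τ = ρ ++ σ := by
  apply eq_append_of_entry
  intro i hi
  obtain ⟨x, hx⟩ := entry_some hi
  have h0 : ∀ n, ∃ y, entry τ i = some y ∧ y n = x n := by
    intro n
    rw [← hasBit_code, h i hi n (x n), hasBit_code]
    exact ⟨x, hx, rfl⟩
  obtain ⟨y, hy, _⟩ := h0 0
  rw [hy, hx]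
  congr 1
  funext n
  obtain ⟨y', hy', hyn⟩ := h0 n
  rw [hy] at hy'
  simp only [Option.some.injEq] at hy'
  rw [hy']
  exact hyn

theorem ext_cases {σ τ : List Fn} (hτ : Valid τ) (h : code τ ∈ E σ) :
    τ = σ ∨ ∃ x ∈ X σ, entry τ σ.length = some x := by
  obtain ⟨ρ, rfl⟩ := append_of_mem_E h
  rcases List.eq_nil_or_concat ρ with h1 | ⟨ρ', x, h1⟩
  · left; simp [h1]
  · right
    subst h1
    simp only [List.concat_eq_append, List.append_assoc, List.cons_append, List.nil_append]
      at hτ ⊢
    refine ⟨x, hτ.of_append.1, ?_⟩
    have := entry_append (ρ := ρ') (σ := x :: σ) (i := σ.length) (by simp)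
    rw [this]
    simp [entry]

theorem mem_Inact_code {τ : List Fn} {i : ℕ} : code τ ∈ Inact i ↔ entry τ i = none := by
  constructor
  · intro h
    cases hτ : entry τ i with
    | none => rfl
    | some x =>
      exfalso
      exact h (x 0) (hasBit_code.2 ⟨x, hτ, rfl⟩)
  · intro h v hv
    rw [hasBit_code, h] at hv
    simp at hv

theorem isClopen_hasBit (i n : ℕ) (v : ℤ) : IsClopen {ω : Om | HasBit ω i n v} := by
  have : {ω : Om | HasBit ω i n v} = (fun ω : Om => ω (enc (i, n, v))) ⁻¹' {true} := by
    ext ω; simp [HasBit]
  rw [this]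
  exact (isClopen_discrete _).preimage (continuous_apply _)

theorem isClopen_not_hasBit (i n : ℕ) (v : ℤ) : IsClopen {ω : Om | ¬ HasBit ω i n v} :=
  (isClopen_hasBit i n v).compl

theorem isClosed_E (σ : List Fn) : IsClosed (E σ) := by
  have : E σ = ⋂ i, ⋂ (_ : i < σ.length), ⋂ n, ⋂ v,
      {ω : Om | HasBit ω i n v ↔ HasBit (code σ) i n v} := by
    ext ω; simp [E]
  rw [this]
  refine isClosed_iInter fun i => isClosed_iInter fun _ => isClosed_iInter fun n =>
    isClosed_iInter fun v => ?_
  by_cases h : HasBit (code σ) i n v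
  · simp only [h, iff_true]
    exact (isClopen_hasBit i n v).isClosed
  · simp only [h, iff_false]
    exact (isClopen_not_hasBit i n v).isClosed

theorem isClosed_Inact (i : ℕ) : IsClosed (Inact i) := by
  have : Inact i = ⋂ v, {ω : Om | ¬ HasBit ω i 0 v} := by
    ext ω; simp [Inact]
  rw [this]
  exact isClosed_iInter fun v => (isClopen_not_hasBit i 0 v).isClosed

/-- The values at position `l` are eventually `≤ u`. -/
def LE (l : ℕ) (u : Fn) : Set Om := {ω | ∀ᶠ n in atTop, ∀ z, u n < z → ¬ HasBit ω l n z}

/-- The values at position `l` are eventually `≥ u`. -/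
def GE (l : ℕ) (u : Fn) : Set Om := {ω | ∀ᶠ n in atTop, ∀ z, z < u n → ¬ HasBit ω l n z}

/-- Position `l` is the graph of `x`. -/
def Gr (l : ℕ) (x : Fn) : Set Om := {ω | ∀ n z, HasBit ω l n z ↔ x n = z}

theorem isGδ_LE_compl (l : ℕ) (u : Fn) : IsGδ (LE l u)ᶜ := by
  have : (LE l u)ᶜ = ⋂ N : ℕ, ⋃ n, ⋃ (_ : N ≤ n), ⋃ z, ⋃ (_ : u n < z),
      {ω : Om | HasBit ω l n z} := by
    ext ω
    simp [LE, eventually_atTop]
  rw [this]
  exact IsGδ.iInter_of_isOpen fun N => isOpen_iUnion fun n => isOpen_iUnion fun _ =>
    isOpen_iUnion fun z => isOpen_iUnion fun _ => (isClopen_hasBit l n z).isOpen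

theorem isGδ_GE_compl (l : ℕ) (u : Fn) : IsGδ (GE l u)ᶜ := by
  have : (GE l u)ᶜ = ⋂ N : ℕ, ⋃ n, ⋃ (_ : N ≤ n), ⋃ z, ⋃ (_ : z < u n),
      {ω : Om | HasBit ω l n z} := by
    ext ω
    simp [GE, eventually_atTop]
  rw [this]
  exact IsGδ.iInter_of_isOpen fun N => isOpen_iUnion fun n => isOpen_iUnion fun _ =>
    isOpen_iUnion fun z => isOpen_iUnion fun _ => (isClopen_hasBit l n z).isOpen

theorem isClosed_Gr (l : ℕ) (x : Fn) : IsClosed (Gr l x) := by
  have : Gr l x = ⋂ n, ⋂ z, {ω : Om | HasBit ω l n z ↔ x n = z} := by
    ext ω; simp [Gr]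
  rw [this]
  refine isClosed_iInter fun n => isClosed_iInter fun z => ?_
  by_cases h : x n = z
  · simp only [h, iff_true]
    exact (isClopen_hasBit l n z).isClosed
  · simp only [h, iff_false]
    exact (isClopen_not_hasBit l n z).isClosed

end Pool.Agent.H.MP_906480_an
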