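import Pool.Agent.H.MP_906480_an.Nodes

/-!
The almost disjoint sets attached to a branch, an increasing sequence and an increasing
sequence of closed sets.
-/

namespace Pool.Agent.H.MP_906480_an

open Filter Topology MeasureTheory

/-- A strictly increasing sequence above `h`. -/
def Hs (h : ℕ → ℕ) (i : ℕ) : ℕ := i + ∑ i' ∈ Finset.range (i + 1), h i'

theorem le_Hs (h : ℕ → ℕ) (i : ℕ) : h i ≤ Hs h i := by
  unfold Hs
  have : h i ≤ ∑ i' ∈ Finset.range (i + 1), h i' :=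
    Finset.single_le_sum (f := h) (fun _ _ => Nat.zero_le _) (by simp)
  omega

theorem id_le_Hs (h : ℕ → ℕ) (i : ℕ) : i ≤ Hs h i := by
  unfold Hs
  omega

theorem Hs_strictMono (h : ℕ → ℕ) : StrictMono (Hs h) := by
  apply strictMono_nat_of_lt_succ
  intro i
  unfold Hs
  rw [Finset.sum_range_succ (n := i + 1)]
  omega

/-- The levels used by the branch `π`. -/
def Lv (π : ℕ → Bool) (h : ℕ → ℕ) (i : ℕ) : ℕ := node π (Hs h i)

theorem Lv_inj {π π' : ℕ → Bool} {h h' : ℕ → ℕ} {i i' : ℕ} (e : Lv π h i = Lv π' h' i') :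
    Hs h i = Hs h' i' := node_inj_level e

theorem Lv_injective {π : ℕ → Bool} {h : ℕ → ℕ} : Function.Injective (Lv π h) :=
  fun _ _ e => (Hs_strictMono h).injective (Lv_inj e)

theorem id_le_Lv (π : ℕ → Bool) (h : ℕ → ℕ) (i : ℕ) : Hs h i ≤ Lv π h i :=
  le_trans (Nat.lt_two_pow_self).le (node_lb π _)

theorem Lv_tendsto (π : ℕ → Bool) (h : ℕ → ℕ) : Tendsto (Lv π h) atTop atTop :=
  tendsto_atTop_mono (fun i => le_trans (id_le_Hs h i) (id_le_Lv π h i)) tendsto_id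

/-- The set of nodes of the levels used by `π` avoided by the closed sets. -/
def Ks (π : ℕ → Bool) (h : ℕ → ℕ) (F : ℕ → Set (ℕ → Bool)) : Set ℕ :=
  {k | ∃ i, 2 ^ Lv π h i ≤ k ∧ k < 2 ^ (Lv π h i + 1) ∧ ∀ ω ∈ F i, node ω (Lv π h i) ≠ k}

/-- The set attached to the branch `π`. -/
def Bs (π : ℕ → Bool) (h : ℕ → ℕ) (F : ℕ → Set (ℕ → Bool)) : Set ℕ :=
  Set.range (node π) ∪ Ks π h F

theorem level_unique {a b k : ℕ} (h1 : 2 ^ a ≤ k) (h2 : k < 2 ^ (a + 1)) (h3 : 2 ^ b ≤ k)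
    (h4 : k < 2 ^ (b + 1)) : a = b := by
  have h7 := (Nat.pow_lt_pow_iff_right (a := 2) (by norm_num)).1 (lt_of_le_of_lt h1 h4)
  have h8 := (Nat.pow_lt_pow_iff_right (a := 2) (by norm_num)).1 (lt_of_le_of_lt h3 h2)
  omega

theorem zero_notMem_Bs (π : ℕ → Bool) (h : ℕ → ℕ) (F : ℕ → Set (ℕ → Bool)) :
    0 ∉ Bs π h F := by
  rintro (⟨j, hj⟩ | ⟨i, h1, -⟩)
  · have h1 := node_lb π j
    have h2 : 0 < 2 ^ j := by positivity
    omega
  · have h2 : 0 < 2 ^ Lv π h i := by positivity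
    omega

theorem range_inter_Ks_finite {π π' : ℕ → Bool} {h : ℕ → ℕ} {F : ℕ → Set (ℕ → Bool)}
    (h1 : ∀ᶠ i in atTop, π' ∈ F i) : (Set.range (node π') ∩ Ks π h F).Finite := by
  obtain ⟨i0, hi0⟩ := eventually_atTop.1 h1
  apply Set.Finite.subset ((Set.finite_Iio i0).image (fun i => node π' (Lv π h i)))
  rintro _ ⟨⟨j, rfl⟩, i, h2, h3, h4⟩
  have hj : j = Lv π h i := level_unique (node_lb π' j) (node_ub π' j) h2 h3
  subst hj
  refine ⟨i, ?_, rfl⟩
  by_contra hi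
  simp only [Set.mem_Iio, not_lt] at hi
  exact h4 π' (hi0 i hi) rfl

theorem Bs_inter_finite {π π' : ℕ → Bool} {h h' : ℕ → ℕ} {F F' : ℕ → Set (ℕ → Bool)}
    (hne : π ≠ π') (h1 : ∀ᶠ i in atTop, π' ∈ F i) (h2 : ∀ᶠ i in atTop, π ∈ F' i) :
    (Bs π h F ∩ Bs π' h' F').Finite := by
  obtain ⟨D, hD⟩ : ∃ D, ∀ j, D ≤ j → node π j ≠ node π' j := by
    obtain ⟨d, hd⟩ := Function.ne_iff.1 hne
    exact ⟨d + 1, fun j hj e => hd (node_eq_iff.1 e d (by omega))⟩
  have hA : (Set.range (node π) ∩ Set.range (node π')).Finite := by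
    apply Set.Finite.subset ((Set.finite_Iio D).image (node π))
    rintro _ ⟨⟨j, rfl⟩, j', hj'⟩
    refine ⟨j, ?_, rfl⟩
    have := node_inj_level hj'
    subst this
    by_contra hj
    simp only [Set.mem_Iio, not_lt] at hj
    exact hD _ hj hj'.symm
  have hB := range_inter_Ks_finite (π := π) (π' := π') (h := h) h1
  have hC := range_inter_Ks_finite (π := π') (π' := π) (h := h') h2
  have hE : (Ks π h F ∩ Ks π' h' F').Finite := by
    apply Set.Finite.subset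
      ((Set.finite_Iio D).biUnion (fun i _ => Set.finite_Iio (2 ^ (Lv π h i + 1))))
    rintro k ⟨⟨i, h3, h4, -⟩, i', h5, h6, -⟩
    have e := level_unique h3 h4 h5 h6
    have e2 := Lv_inj e
    simp only [Set.mem_iUnion, Set.mem_Iio]
    refine ⟨i, ?_, h4⟩
    by_contra hi
    push Not at hi
    apply hD (Hs h i) (le_trans hi (id_le_Hs h i))
    unfold Lv at e
    rw [← e2] at e
    exact e
  apply (((hA.union hB).union hC).union hE).subset
  rintro k ⟨h3 | h3, h4 | h4⟩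
  · exact Or.inl (Or.inl (Or.inl ⟨h3, h4⟩))
  · exact Or.inl (Or.inr ⟨h3, h4⟩)
  · exact Or.inl (Or.inl (Or.inr ⟨h4, h3⟩))
  · exact Or.inr ⟨h3, h4⟩

theorem frequently_notMem_range (π : ℕ → Bool) (h : ℕ → ℕ) :
    ∃ᶠ N in atTop, N ∉ Set.range (Lv π h) := by
  rw [frequently_atTop]
  intro a
  by_contra hcon
  push Not at hcon
  have h0 : a < 2 ^ (a + 1) := lt_trans Nat.lt_two_pow_self
    (Nat.pow_lt_pow_right (by norm_num) (by omega))
  have h00 : 1 < 2 ^ (a + 1) := Nat.one_lt_two_pow (by omega)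
  obtain ⟨i, hi⟩ := hcon (2 ^ (a + 1)) h0.le
  obtain ⟨i', hi'⟩ := hcon (2 ^ (a + 1) + 1) (by omega)
  have h1 : Hs h i = a + 1 := by
    refine level_unique (k := 2 ^ (a + 1)) ?_ ?_ le_rfl (Nat.pow_lt_pow_right (by norm_num) (by omega))
    · rw [← hi]; exact node_lb π _
    · rw [← hi]; exact node_ub π _
  have h2 : Hs h i' = a + 1 := by
    refine level_unique (k := 2 ^ (a + 1) + 1) ?_ ?_ (by omega) ?_
    · rw [← hi']; exact node_lb π _
    · rw [← hi']; exact node_ub π _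
    · rw [pow_succ (n := a + 1)]; omega
  have h3 : i = i' := (Hs_strictMono h).injective (h1.trans h2.symm)
  subst h3
  omega

theorem node_mem_Bs_of_notMem {π : ℕ → Bool} {h : ℕ → ℕ} {F : ℕ → Set (ℕ → Bool)} {N : ℕ}
    (hN : N ∉ Set.range (Lv π h)) (ω : ℕ → Bool) :
    node ω N ∈ Bs π h F ↔ node ω N = node π N := by
  constructor
  · rintro (⟨j, hj⟩ | ⟨i, h1, h2, -⟩)
    · have := node_inj_level hj
      subst this
      exact hj.symm
    · exact absurd ⟨i, level_unique h1 h2 (node_lb ω N) (node_ub ω N)⟩ hN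
  · intro e
    exact Or.inl ⟨N, e.symm⟩

theorem node_mem_Bs_of_level {π : ℕ → Bool} {h : ℕ → ℕ} {F : ℕ → Set (ℕ → Bool)} (i : ℕ)
    (ω : ℕ → Bool) :
    node ω (Lv π h i) ∈ Bs π h F ↔ node ω (Lv π h i) = node π (Lv π h i) ∨
      ∀ ω' ∈ F i, node ω' (Lv π h i) ≠ node ω (Lv π h i) := by
  constructor
  · rintro (⟨j, hj⟩ | ⟨i', h1, h2, h3⟩)
    · have := node_inj_level hj
      subst this
      exact Or.inl hj.symm
    · right
      have e : i' = i := Lv_injective (level_unique h1 h2 (node_lb ω _) (node_ub ω _))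
      subst e
      exact h3
  · rintro (e | e)
    · exact Or.inl ⟨_, e.symm⟩
    · exact Or.inr ⟨i, node_lb ω _, node_ub ω _, e⟩

end Pool.Agent.H.MP_906480_an
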