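import Pool.Agent.H.MP_906480_an.Covers

/-!
Cardinality of the family of covers, unboundedness and uncountability of the root chain.
-/

namespace Pool.Agent.H.MP_906480_an

open Filter Topology MeasureTheory

/-- Valid lists as a type. -/
abbrev V := {τ : List Fn // Valid τ}

theorem X_nil_unbounded (g : Fn) : ∃ x ∈ X [], ¬ Prec x g := by
  by_contra h
  push Not at h
  exact X_barrier (σ := []) (u := g) h (by intro a ha; rw [Aset_nil] at ha; exact absurd ha (by simp))

theorem X_nil_dom (g : ℕ → ℕ) : ∃ x ∈ X [], ∃ j : ℕ, ∃ᶠ k in atTop, g k ≤ (x k + j).toNat := by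
  obtain ⟨x, hx, h⟩ := X_nil_unbounded (fun n => (g n : ℤ))
  refine ⟨x, hx, ?_⟩
  unfold Prec at h
  push Not at h
  obtain ⟨k0, hk0⟩ := h
  refine ⟨k0.toNat, ?_⟩
  refine hk0.mono ?_
  intro n hn
  have := Int.self_le_toNat k0
  omega

theorem X_nil_not_countable : ¬ (X []).Countable := by
  intro h
  obtain ⟨x0, hx0, -⟩ := X_nil_unbounded 0
  obtain ⟨f, hf⟩ := h.exists_eq_range ⟨x0, hx0⟩
  obtain ⟨x, hx, hx2⟩ := X_nil_unbounded (fun n => (n : ℤ) + ∑ i ∈ Finset.range (n + 1), |f i n|)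
  rw [hf] at hx
  obtain ⟨i, rfl⟩ := hx
  apply hx2
  intro k
  filter_upwards [eventually_ge_atTop (max i k.toNat)] with n hn
  have h1 : |f i n| ≤ ∑ j ∈ Finset.range (n + 1), |f j n| := by
    apply Finset.single_le_sum (f := fun j => |f j n|) (fun j _ => abs_nonneg _)
    rw [Finset.mem_range]
    have := le_max_left i k.toNat
    omega
  have h2 := le_abs_self (f i n)
  have h3 := Int.self_le_toNat k
  have h4 := le_max_right i k.toNat
  have h5 : (k.toNat : ℤ) ≤ n := by exact_mod_cast le_trans h4 hn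
  linarith

theorem codes_not_countable : ¬ (Set.range (fun τ : V => code τ.1)).Countable := by
  intro h
  apply X_nil_not_countable
  have h1 : (X []).Countable ↔ ((fun x : Fn => code [x]) '' (X [])).Countable := by
    constructor
    · intro h; exact h.image _
    · intro h
      refine (Set.countable_of_injective_of_countable_image ?_ h)
      intro x _ y _ hxy
      have := code_injective hxy
      simpa using this
  rw [h1]
  apply h.mono
  rintro _ ⟨x, hx, rfl⟩
  exact ⟨⟨[x], hx, trivial⟩, rfl⟩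

theorem aleph0_le_V : Cardinal.aleph0 ≤ Cardinal.mk V := by
  by_contra h
  push Not at h
  have h1 : Finite V := Cardinal.lt_aleph0_iff_finite.1 h
  exact codes_not_countable (Set.countable_range _)

/-- Index type for the covers. -/
abbrev T := V × V × (ℕ × ℕ × ℕ × ℤ × ℤ)

/-- The cover attached to an index. -/
noncomputable def covF (t : T) : Set Om :=
  match t with
  | (τ, τ', tag, n, l, z, z') =>
    match tag with
    | 0 => ⋃ i, Inact i
    | 1 => (E τ.1)ᶜ ∪ ((Inact τ.1.length)ᶜ ∪ {code τ.1})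
    | 2 => (E τ.1)ᶜ ∪ (Inact τ.1.length ∪ {ω | ∃ v, HasBit ω τ.1.length n v})
    | 3 => {ω | ¬ (HasBit ω l n z ∧ HasBit ω l n z')}
    | 4 => match τ.1 with
      | [] => Set.univ
      | x :: σ => (E σ)ᶜ ∪ (Inact σ.length ∪ (Gr σ.length x ∪
        (LE σ.length (fun n => x n - z) ∪ GE σ.length (fun n => x n + z))))
    | 5 => match τ.1 with
      | [] => Set.univ
      | [_] => Set.univ
      | w :: x :: σ => (E σ)ᶜ ∪ (Inact σ.length ∪
        (LE σ.length (fun n => (-w) n - z) ∪ GE σ.length x))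
    | _ => match τ'.1 with
      | [] => Set.univ
      | a :: _ => (E τ.1)ᶜ ∪ (Inact τ.1.length ∪ LE τ.1.length (fun n => - a n - z))

theorem exists_covF {G : Set Om} (hG : IsCov G) : ∃ t, covF t = G := by
  let e : V := ⟨[], trivial⟩
  cases hG with
  | c0 => exact ⟨(e, e, 0, 0, 0, 0, 0), rfl⟩
  | c5 σ h => exact ⟨(⟨σ, h⟩, e, 1, 0, 0, 0, 0), rfl⟩
  | c6 σ h n => exact ⟨(⟨σ, h⟩, e, 2, n, 0, 0, 0), rfl⟩
  | c7 l n v v' h => exact ⟨(e, e, 3, n, l, v, v'), rfl⟩
  | c1 σ x h k => exact ⟨(⟨x :: σ, h⟩, e, 4, 0, 0, k, 0), rfl⟩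
  | c3 σ x w h k =>
    refine ⟨(⟨-w :: x :: σ, h⟩, e, 5, 0, 0, k, 0), ?_⟩
    simp only [covF, neg_neg]
  | c4 σ a h ha k =>
    cases σ with
    | nil => rw [Aset_nil] at ha; exact absurd ha (by simp)
    | cons x ρ =>
      have ha' := (mem_Aset_cons.1 ha).1
      exact ⟨(⟨x :: ρ, h⟩, ⟨a :: ρ, ha', h.2⟩, 6, 0, 0, k, 0), rfl⟩

theorem mk_T_le : Cardinal.mk T ≤ Cardinal.mk V := by
  have h := aleph0_le_V
  have hc : Cardinal.mk (ℕ × ℕ × ℕ × ℤ × ℤ) ≤ Cardinal.mk V :=
    le_trans (Cardinal.mk_le_aleph0) h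
  calc Cardinal.mk T = Cardinal.mk V * (Cardinal.mk V * Cardinal.mk (ℕ × ℕ × ℕ × ℤ × ℤ)) := by
        simp only [Cardinal.mk_prod, Cardinal.lift_id]
    _ ≤ Cardinal.mk V * (Cardinal.mk V * Cardinal.mk V) := by gcongr
    _ = Cardinal.mk V := by rw [Cardinal.mul_eq_self h, Cardinal.mul_eq_self h]

/-- Index type for the tests. -/
abbrev Q := {G : Set Om // IsCov G} × ℕ × {x : Fn // x ∈ X []} × ℕ

theorem mk_Q_le : Cardinal.mk Q ≤ Cardinal.mk V := by
  have h := aleph0_le_V
  have h1 : Cardinal.mk {G : Set Om // IsCov G} ≤ Cardinal.mk V := by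
    refine le_trans ?_ mk_T_le
    choose f hf using fun G : {G : Set Om // IsCov G} => exists_covF G.2
    apply Cardinal.mk_le_of_injective (f := f)
    intro G G' hGG
    apply Subtype.ext
    rw [← hf G, ← hf G', hGG]
  have h2 : Cardinal.mk {x : Fn // x ∈ X []} ≤ Cardinal.mk V := by
    apply Cardinal.mk_le_of_injective (f := fun x => (⟨[x.1], x.2, trivial⟩ : V))
    intro x y hxy
    apply Subtype.ext
    have h3 : [x.1] = [y.1] := congrArg Subtype.val hxy
    simpa using h3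
  have h3 : Cardinal.mk ℕ ≤ Cardinal.mk V := le_trans (Cardinal.mk_le_aleph0) h
  calc Cardinal.mk Q = Cardinal.mk {G : Set Om // IsCov G} * (Cardinal.mk ℕ *
        (Cardinal.mk {x : Fn // x ∈ X []} * Cardinal.mk ℕ)) := by
        simp only [Cardinal.mk_prod, Cardinal.lift_id]
    _ ≤ Cardinal.mk V * (Cardinal.mk V * (Cardinal.mk V * Cardinal.mk V)) := by gcongr
    _ = Cardinal.mk V := by
      rw [Cardinal.mul_eq_self h, Cardinal.mul_eq_self h, Cardinal.mul_eq_self h]

theorem exists_surj : ∃ s : V → Q, Function.Surjective s := by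
  have h := mk_Q_le
  rw [Cardinal.le_def] at h
  obtain ⟨g⟩ := h
  obtain ⟨x0, hx0, -⟩ := X_nil_unbounded 0
  have : Nonempty Q := ⟨(⟨_, IsCov.c0⟩, 0, ⟨x0, hx0⟩, 0)⟩
  exact ⟨Function.invFun g, Function.invFun_surjective g.injective⟩

end Pool.Agent.H.MP_906480_an
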