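import Pool.Agent.H.MP_906480_an.Code

/-!
The family of covers of the set of codes of valid lists, and the kill theorem.
-/

namespace Pool.Agent.H.MP_906480_an

open Filter Topology MeasureTheory

/-- The covers. -/
inductive IsCov : Set Om → Prop
  | c0 : IsCov (⋃ i, Inact i)
  | c5 (σ : List Fn) (h : Valid σ) : IsCov ((E σ)ᶜ ∪ ((Inact σ.length)ᶜ ∪ {code σ}))
  | c6 (σ : List Fn) (h : Valid σ) (n : ℕ) :
      IsCov ((E σ)ᶜ ∪ (Inact σ.length ∪ {ω | ∃ v, HasBit ω σ.length n v}))
  | c7 (l n : ℕ) (v v' : ℤ) (h : v ≠ v') : IsCov {ω | ¬ (HasBit ω l n v ∧ HasBit ω l n v')}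
  | c1 (σ : List Fn) (x : Fn) (h : Valid (x :: σ)) (k : ℤ) :
      IsCov ((E σ)ᶜ ∪ (Inact σ.length ∪ (Gr σ.length x ∪
        (LE σ.length (fun n => x n - k) ∪ GE σ.length (fun n => x n + k)))))
  | c3 (σ : List Fn) (x w : Fn) (h : Valid (-w :: x :: σ)) (k : ℤ) :
      IsCov ((E σ)ᶜ ∪ (Inact σ.length ∪
        (LE σ.length (fun n => w n - k) ∪ GE σ.length x)))
  | c4 (σ : List Fn) (a : Fn) (h : Valid σ) (ha : a ∈ Aset σ) (k : ℤ) :
      IsCov ((E σ)ᶜ ∪ (Inact σ.length ∪ LE σ.length (fun n => - a n - k)))

theorem mem_LE_of_entry {τ : List Fn} {l : ℕ} {y u : Fn} (hy : entry τ l = some y)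
    (h : ∀ᶠ n in atTop, y n ≤ u n) : code τ ∈ LE l u := by
  filter_upwards [h] with n hn z hz hb
  rw [hasBit_code, hy] at hb
  obtain ⟨x, hx, hxz⟩ := hb
  simp only [Option.some.injEq] at hx
  subst hx
  omega

theorem mem_GE_of_entry {τ : List Fn} {l : ℕ} {y u : Fn} (hy : entry τ l = some y)
    (h : ∀ᶠ n in atTop, u n ≤ y n) : code τ ∈ GE l u := by
  filter_upwards [h] with n hn z hz hb
  rw [hasBit_code, hy] at hb
  obtain ⟨x, hx, hxz⟩ := hb
  simp only [Option.some.injEq] at hx
  subst hx
  omega

theorem mem_Gr_of_entry {τ : List Fn} {l : ℕ} {y : Fn} (hy : entry τ l = some y) :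
    code τ ∈ Gr l y := by
  intro n z
  rw [hasBit_code, hy]
  simp

/-- All codes of valid lists belong to all covers. -/
theorem IsCov.mem {G : Set Om} (hG : IsCov G) {τ : List Fn} (hτ : Valid τ) : code τ ∈ G := by
  have aux : ∀ (σ : List Fn) (S : Set Om),
      (∀ y ∈ X σ, entry τ σ.length = some y → code τ ∈ S) →
      code τ ∈ (E σ)ᶜ ∪ (Inact σ.length ∪ S) := by
    intro σ S hS
    by_cases h1 : code τ ∈ E σ
    · right
      rcases ext_cases hτ h1 with h2 | ⟨y, hy, h2⟩
      · left
        rw [mem_Inact_code, h2]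
        exact entry_none le_rfl
      · right
        exact hS y hy h2
    · left
      exact h1
  cases hG with
  | c0 =>
    exact Set.mem_iUnion.2 ⟨τ.length, mem_Inact_code.2 (entry_none le_rfl)⟩
  | c5 σ h =>
    by_cases h1 : code τ ∈ E σ
    · right
      rcases ext_cases hτ h1 with h2 | ⟨y, hy, h2⟩
      · right
        rw [h2]
        rfl
      · left
        intro h3
        rw [mem_Inact_code, h2] at h3
        simp at h3
    · left
      exact h1
  | c6 σ h n =>
    apply aux
    intro y hy hent
    exact ⟨y n, hasBit_code.2 ⟨y, hent, rfl⟩⟩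
  | c7 l n v v' h =>
    rintro ⟨h1, h2⟩
    rw [hasBit_code] at h1 h2
    obtain ⟨x, hx, hx2⟩ := h1
    obtain ⟨y, hy, hy2⟩ := h2
    rw [hx] at hy
    simp only [Option.some.injEq] at hy
    subst hy
    exact h (hx2.symm.trans hy2)
  | c1 σ x h k =>
    apply aux
    intro y hy hent
    rcases X_trich hy h.1 with h1 | h1 | h1
    · left
      rw [← h1]
      exact mem_Gr_of_entry hent
    · right; left
      apply mem_LE_of_entry hent
      filter_upwards [h1 k] with n hn
      omega
    · right; right
      apply mem_GE_of_entry hent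
      exact h1 k
  | c3 σ x w h k =>
    apply aux
    intro y hy hent
    rcases X_trich hy h.2.1 with h1 | h1 | h1
    · right
      apply mem_GE_of_entry hent
      rw [h1]
      exact Eventually.of_forall fun n => le_rfl
    · left
      apply mem_LE_of_entry hent
      have h2 : Prec y w := W_ub (neg_mem_X.1 h.1) (mem_Aset_cons.2 ⟨hy, h1⟩)
      filter_upwards [h2 k] with n hn
      omega
    · right
      apply mem_GE_of_entry hent
      filter_upwards [h1 0] with n hn
      omega
  | c4 σ a h ha k =>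
    apply aux
    intro y hy hent
    apply mem_LE_of_entry hent
    filter_upwards [X_prec_neg hy ha k] with n hn
    simp only [Pi.neg_apply] at hn
    omega

theorem IsCov.isGδ_compl {G : Set Om} (hG : IsCov G) : IsGδ Gᶜ := by
  cases hG with
  | c0 =>
    rw [Set.compl_iUnion]
    exact IsGδ.iInter_of_isOpen fun i => (isClosed_Inact i).isOpen_compl
  | c5 σ h =>
    simp only [Set.compl_union, compl_compl]
    exact (isClosed_E σ).isGδ.inter ((isClosed_Inact _).isGδ.inter
      isClosed_singleton.isOpen_compl.isGδ)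
  | c6 σ h n =>
    simp only [Set.compl_union, compl_compl]
    refine (isClosed_E σ).isGδ.inter ((isClosed_Inact _).isOpen_compl.isGδ.inter ?_)
    apply IsClosed.isGδ
    rw [isClosed_compl_iff]
    have : {ω : Om | ∃ v, HasBit ω σ.length n v} = ⋃ v, {ω : Om | HasBit ω σ.length n v} := by
      ext ω; simp
    rw [this]
    exact isOpen_iUnion fun v => (isClopen_hasBit _ _ v).isOpen
  | c7 l n v v' h =>
    have : {ω : Om | ¬ (HasBit ω l n v ∧ HasBit ω l n v')}ᶜ =
        {ω : Om | HasBit ω l n v} ∩ {ω : Om | HasBit ω l n v'} := by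
      ext ω; simp
    rw [this]
    exact ((isClopen_hasBit _ _ _).isOpen.inter (isClopen_hasBit _ _ _).isOpen).isGδ
  | c1 σ x h k =>
    simp only [Set.compl_union, compl_compl]
    exact (isClosed_E σ).isGδ.inter ((isClosed_Inact _).isOpen_compl.isGδ.inter
      ((isClosed_Gr _ _).isOpen_compl.isGδ.inter ((isGδ_LE_compl _ _).inter (isGδ_GE_compl _ _))))
  | c3 σ x w h k =>
    simp only [Set.compl_union, compl_compl]
    exact (isClosed_E σ).isGδ.inter ((isClosed_Inact _).isOpen_compl.isGδ.inter
      ((isGδ_LE_compl _ _).inter (isGδ_GE_compl _ _)))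
  | c4 σ a h ha k =>
    simp only [Set.compl_union, compl_compl]
    exact (isClosed_E σ).isGδ.inter ((isClosed_Inact _).isOpen_compl.isGδ.inter
      (isGδ_LE_compl _ _))

open Classical in
/-- The function coded at position `l`. -/
noncomputable def val (l : ℕ) (ω : Om) : Fn := fun n =>
  if h : ∃ j : ℕ, HasBit ω l n (Denumerable.ofNat ℤ j) then
    Denumerable.ofNat ℤ (Nat.find h) else 0

theorem val_spec {l : ℕ} {ω : Om} {n : ℕ} (h1 : ∃ v, HasBit ω l n v)
    (h2 : ∀ v v', v ≠ v' → ¬ (HasBit ω l n v ∧ HasBit ω l n v')) (v : ℤ) :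
    HasBit ω l n v ↔ val l ω n = v := by
  classical
  have hex : ∃ j : ℕ, HasBit ω l n (Denumerable.ofNat ℤ j) := by
    obtain ⟨v, hv⟩ := h1
    exact ⟨Encodable.encode v, by rwa [Denumerable.ofNat_encode]⟩
  have hval : HasBit ω l n (val l ω n) := by
    unfold val
    rw [dif_pos hex]
    exact Nat.find_spec hex
  constructor
  · intro hv
    by_contra hne
    exact h2 _ _ hne ⟨hval, hv⟩
  · rintro rfl
    exact hval

theorem measurable_val (l n : ℕ) : Measurable (fun ω : Om => val l ω n) := by
  classical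
  have hbit : ∀ j : ℕ, MeasurableSet {ω : Om | HasBit ω l n (Denumerable.ofNat ℤ j)} := fun j =>
    (isClopen_hasBit _ _ _).isOpen.measurableSet
  have hS : MeasurableSet {ω : Om | ∃ j : ℕ, HasBit ω l n (Denumerable.ofNat ℤ j)} := by
    have : {ω : Om | ∃ j : ℕ, HasBit ω l n (Denumerable.ofNat ℤ j)} =
        ⋃ j, {ω : Om | HasBit ω l n (Denumerable.ofNat ℤ j)} := by ext ω; simp
    rw [this]
    exact MeasurableSet.iUnion hbit
  have hp : ∀ ω : Om, ∃ j : ℕ, (HasBit ω l n (Denumerable.ofNat ℤ j) ∨
      ¬ ∃ j : ℕ, HasBit ω l n (Denumerable.ofNat ℤ j)) := by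
    intro ω
    by_cases h : ∃ j : ℕ, HasBit ω l n (Denumerable.ofNat ℤ j)
    · obtain ⟨j, hj⟩ := h
      exact ⟨j, Or.inl hj⟩
    · exact ⟨0, Or.inr h⟩
  have hf : Measurable (fun ω : Om => Nat.find (hp ω)) :=
    measurable_find hp (fun k => (hbit k).union hS.compl)
  have heq : (fun ω : Om => val l ω n) = fun ω =>
      if ω ∈ {ω : Om | ∃ j : ℕ, HasBit ω l n (Denumerable.ofNat ℤ j)} then
        Denumerable.ofNat ℤ (Nat.find (hp ω)) else 0 := by
    funext ω
    unfold val
    by_cases h : ∃ j : ℕ, HasBit ω l n (Denumerable.ofNat ℤ j)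
    · have hmem : ω ∈ {ω : Om | ∃ j : ℕ, HasBit ω l n (Denumerable.ofNat ℤ j)} := h
      rw [dif_pos h, if_pos hmem]
      congr 1
      apply (Nat.find_eq_iff _).2
      refine ⟨?_, ?_⟩
      · rcases Nat.find_spec (hp ω) with h1 | h1
        · exact h1
        · exact absurd h h1
      · intro j hj hb
        exact Nat.find_min (hp ω) hj (Or.inl hb)
    · have hmem : ω ∉ {ω : Om | ∃ j : ℕ, HasBit ω l n (Denumerable.ofNat ℤ j)} := h
      rw [dif_neg h, if_neg hmem]
  rw [heq]
  exact Measurable.ite hS ((measurable_from_top (f := Denumerable.ofNat ℤ)).comp hf)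
    measurable_const

/-- The kill theorem for positive measures. -/
theorem kill (m : Measure Om) [IsFiniteMeasure m] (hm : m ≠ 0)
    (hat : ∀ τ, Valid τ → m {code τ} = 0) : ∃ G, IsCov G ∧ m Gᶜ ≠ 0 := by
  classical
  by_contra hcon
  push Not at hcon
  have hcov : ∀ G, IsCov G → ∀ᵐ ω ∂m, ω ∈ G := by
    intro G hG
    rw [ae_iff]
    exact hcon G hG
  -- step 0
  have h0 : ∃ i, m (Inact i) ≠ 0 := by
    by_contra h
    push Not at h
    have h1 : m (⋃ i, Inact i) = 0 := measure_iUnion_null h
    have h2 : m (⋃ i, Inact i)ᶜ = 0 := hcon _ IsCov.c0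
    apply hm
    rw [← Measure.measure_univ_eq_zero, ← Set.union_compl_self (⋃ i, Inact i)]
    exact measure_union_null h1 h2
  set i := Nat.find h0 with hi
  have hi1 : m (Inact i) ≠ 0 := Nat.find_spec h0
  have hi2 : ∀ j < i, m (Inact j) = 0 := by
    intro j hj
    by_contra h
    exact Nat.find_min h0 hj h
  set m0 := m.restrict (Inact i) with hm0
  have step : ∀ l ≤ i, ∃ σ, Valid σ ∧ σ.length = l ∧ m0 (E σ) ≠ 0 := by
    intro l
    induction l with
    | zero =>
      intro _
      refine ⟨[], trivial, rfl, ?_⟩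
      have : E [] = Set.univ := by
        ext ω; simp [E]
      rw [this, hm0, Measure.restrict_apply_univ]
      exact hi1
    | succ l ih =>
      intro hl
      obtain ⟨σ, hσ, hσl, hσm⟩ := ih (by omega)
      set mσ := m0.restrict (E σ) with hmσ
      have hmσ0 : mσ ≠ 0 := by
        intro h
        apply hσm
        have := congrArg (fun μ : Measure Om => μ Set.univ) h
        simpa [hmσ] using this
      have hae : ∀ {p : Om → Prop}, (∀ᵐ ω ∂m, p ω) → ∀ᵐ ω ∂mσ, p ω := by
        intro p hp
        exact ae_restrict_of_ae (ae_restrict_of_ae hp)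
      have hE : ∀ᵐ ω ∂mσ, ω ∈ E σ := ae_restrict_mem (isClosed_E σ).measurableSet
      have hI : ∀ᵐ ω ∂mσ, ω ∉ Inact l := by
        apply hae
        rw [ae_iff]
        simpa using hi2 l (by omega)
      have hfun : ∀ᵐ ω ∂mσ, ∀ n v, HasBit ω l n v ↔ val l ω n = v := by
        have ha : ∀ᵐ ω ∂mσ, ∀ n v v', v ≠ v' → ¬ (HasBit ω l n v ∧ HasBit ω l n v') := by
          apply hae
          rw [ae_all_iff]; intro n
          rw [ae_all_iff]; intro v
          rw [ae_all_iff]; intro v'
          by_cases hv : v = v'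
          · exact Eventually.of_forall fun ω h => absurd hv h
          · filter_upwards [hcov _ (IsCov.c7 l n v v' hv)] with ω hω _
            exact hω
        have hb : ∀ᵐ ω ∂mσ, ∀ n, ω ∈ (E σ)ᶜ ∪ (Inact σ.length ∪ {ω | ∃ v, HasBit ω σ.length n v}) := by
          apply hae
          rw [ae_all_iff]; intro n
          exact hcov _ (IsCov.c6 σ hσ n)
        filter_upwards [ha, hb, hE, hI] with ω h1 h2 h3 h4 n v
        apply val_spec _ (h1 n)
        rcases h2 n with h5 | h5 | h5
        · exact absurd h3 h5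
        · rw [hσl] at h5
          exact absurd h5 h4
        · rw [hσl] at h5
          exact h5
      by_contra hno
      push Not at hno
      have hGr : ∀ x ∈ X σ, ∀ᵐ ω ∂mσ, ω ∉ Gr l x := by
        intro x hx
        have h1 := hno (x :: σ) ⟨hx, hσ⟩ (by simp [hσl])
        rw [ae_iff]
        simp only [not_not, Set.ofPred_mem_eq]
        rw [hmσ, Measure.restrict_apply (isClosed_Gr l x).measurableSet]
        refine measure_mono_null ?_ h1
        rintro ω ⟨h2, h3⟩ j hj n v
        by_cases hjl : j = l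
        · rw [hjl, h2 n v, hasBit_code]
          simp [entry, hσl]
        · have hj' : j < σ.length := by
            simp only [List.length_cons] at hj
            omega
          rw [h3 j hj' n v, hasBit_code, hasBit_code]
          simp only [entry]
          rw [if_neg (by omega)]
      have hLE : ∀ (ω : Om) (u : Fn), (∀ n v, HasBit ω l n v ↔ val l ω n = v) → ω ∈ LE l u →
          ∀ᶠ n in atTop, val l ω n ≤ u n := by
        intro ω u h1 h2
        filter_upwards [h2] with n hn
        by_contra hlt
        push Not at hlt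
        exact hn _ hlt ((h1 n _).2 rfl)
      have hGE : ∀ (ω : Om) (u : Fn), (∀ n v, HasBit ω l n v ↔ val l ω n = v) → ω ∈ GE l u →
          ∀ᶠ n in atTop, u n ≤ val l ω n := by
        intro ω u h1 h2
        filter_upwards [h2] with n hn
        by_contra hlt
        push Not at hlt
        exact hn _ hlt ((h1 n _).2 rfl)
      have hh1 : ∀ x ∈ X σ, ∀ᵐ ω ∂mσ, Prec (val l ω) x ∨ Prec x (val l ω) := by
        intro x hx
        have hb : ∀ᵐ ω ∂mσ, ∀ k : ℤ, ω ∈ (E σ)ᶜ ∪ (Inact σ.length ∪ (Gr σ.length x ∪
            (LE σ.length (fun n => x n - k) ∪ GE σ.length (fun n => x n + k)))) := by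
          apply hae
          rw [ae_all_iff]; intro k
          exact hcov _ (IsCov.c1 σ x ⟨hx, hσ⟩ k)
        filter_upwards [hb, hE, hI, hfun, hGr x hx] with ω h2 h3 h4 h5 h6
        have h7 : ∀ k : ℤ, (∀ᶠ n in atTop, val l ω n ≤ x n - k) ∨
            (∀ᶠ n in atTop, x n + k ≤ val l ω n) := by
          intro k
          have h8 := h2 k
          rw [hσl] at h8
          rcases h8 with h8 | h8 | h8 | h8 | h8
          · exact absurd h3 h8
          · exact absurd h8 h4
          · exact absurd h8 h6
          · exact Or.inl (hLE ω _ h5 h8)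
          · exact Or.inr (hGE ω _ h5 h8)
        by_cases hall : ∀ k : ℤ, ∀ᶠ n in atTop, val l ω n ≤ x n - k
        · left
          intro k
          filter_upwards [hall k] with n hn
          omega
        · right
          push Not at hall
          obtain ⟨k0, hk0⟩ := hall
          intro k
          rcases h7 (max k k0) with h8 | h8
          · exfalso
            apply hk0
            filter_upwards [h8] with n hn
            have := le_max_right k k0
            omega
          · filter_upwards [h8] with n hn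
            have := le_max_left k k0
            omega
      have hh3 : ∀ x ∈ X σ, ∀ w ∈ W (Aset (x :: σ)), ∀ᵐ ω ∂mσ,
          Prec (val l ω) w ∨ Prec x (val l ω) := by
        intro x hx w hw
        have hb : ∀ᵐ ω ∂mσ, ∀ k : ℤ, ω ∈ (E σ)ᶜ ∪ (Inact σ.length ∪
            (LE σ.length (fun n => w n - k) ∪ GE σ.length x)) := by
          apply hae
          rw [ae_all_iff]; intro k
          exact hcov _ (IsCov.c3 σ x w ⟨neg_mem_X.2 hw, hx, hσ⟩ k)
        filter_upwards [hb, hE, hI, hfun, hh1 x hx] with ω h2 h3 h4 h5 h6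
        by_cases hg : ω ∈ GE l x
        · right
          rcases h6 with h6 | h6
          · exfalso
            have h7 := hGE ω _ h5 hg
            obtain ⟨n, hn1, hn2⟩ := (h7.and (h6 1)).exists
            omega
          · exact h6
        · left
          intro k
          have h8 := h2 k
          rw [hσl] at h8
          rcases h8 with h8 | h8 | h8 | h8
          · exact absurd h3 h8
          · exact absurd h8 h4
          · filter_upwards [hLE ω _ h5 h8] with n hn
            omega
          · exact absurd h8 hg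
      have hh4 : ∀ a ∈ Aset σ, ∀ᵐ ω ∂mσ, Prec (val l ω) (-a) := by
        intro a ha
        have hb : ∀ᵐ ω ∂mσ, ∀ k : ℤ, ω ∈ (E σ)ᶜ ∪ (Inact σ.length ∪
            LE σ.length (fun n => - a n - k)) := by
          apply hae
          rw [ae_all_iff]; intro k
          exact hcov _ (IsCov.c4 σ a hσ ha k)
        filter_upwards [hb, hE, hI, hfun] with ω h2 h3 h4 h5 k
        have h8 := h2 k
        rw [hσl] at h8
        rcases h8 with h8 | h8 | h8
        · exact absurd h3 h8
        · exact absurd h8 h4
        · filter_upwards [hLE ω _ h5 h8] with n hn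
          simp only [Pi.neg_apply]
          omega
      exact kill_node (m := mσ) (Y := fun ω => val l ω) σ hmσ0 (fun n => measurable_val l n)
        hh1 hh3 hh4
  obtain ⟨σ, hσ, hσl, hσm⟩ := step i le_rfl
  apply hσm
  have h5 := hcov _ (IsCov.c5 σ hσ)
  have h6 : ∀ᵐ ω ∂m, ω ∉ ({code σ} : Set Om) := by
    rw [ae_iff]
    simpa using hat σ hσ
  rw [hm0, Measure.restrict_apply (isClosed_E σ).measurableSet]
  have h7 : ∀ᵐ ω ∂m, ω ∉ E σ ∩ Inact i := by
    filter_upwards [h5, h6] with ω h8 h9 h10
    rcases h8 with h8 | h8 | h8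
    · exact h8 h10.1
    · rw [hσl] at h8
      exact h8 h10.2
    · exact h9 h8
  rw [ae_iff] at h7
  simpa using h7

end Pool.Agent.H.MP_906480_an
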