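import Mathlib

/-!
Shared definitions for MP_906480_an (weak* bases in dual spaces and bases in the predual).

The binary tree is coded by the positive integers (heap order): the root is `1`,
the children of `k` are `2 * k` and `2 * k + 1`, the level `j` nodes are the integers in
`[2 ^ j, 2 ^ (j + 1))`.
-/

namespace Pool.Agent.H.MP_906480_an

open Filter Topology Finset

/-- The node of level `j` on the branch `ω`. -/
def node (ω : ℕ → Bool) : ℕ → ℕ
  | 0 => 1
  | j + 1 => 2 * node ω j + (if ω j then 1 else 0)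

/-- The combinatorial core: an uncountable family of branches `p` with an almost disjoint
family of sets `b p` of nodes, `b p` containing the branch `p`, which detects every
additive function of bounded variation on the tree. -/
def Core (P : Set (ℕ → Bool)) (b : (ℕ → Bool) → Set ℕ) : Prop :=
  ¬ P.Countable ∧
  (∀ p ∈ P, ∀ j, node p j ∈ b p) ∧
  (∀ p ∈ P, 0 ∉ b p) ∧
  (∀ p ∈ P, ∀ q ∈ P, p ≠ q → (b p ∩ b q).Finite) ∧
  (∀ c : ℕ → ℝ, (∀ k, 1 ≤ k → c k = c (2 * k) + c (2 * k + 1)) →
    (∃ M, ∀ j, ∑ k ∈ Finset.Ico (2 ^ j) (2 ^ (j + 1)), |c k| ≤ M) →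
    (∀ p ∈ P, Tendsto (fun j => ∑ k ∈ Finset.Ico (2 ^ j) (2 ^ (j + 1)),
        (b p).indicator c k) atTop (𝓝 0)) →
    ∀ k, 1 ≤ k → c k = 0)

end Pool.Agent.H.MP_906480_an
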