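import Pool.Agent.H.MP_906480_an.Signed
import Pool.Agent.H.MP_906480_an.Comb
import Pool.Agent.H.MP_906480_an.Count

/-!
The combinatorial core.
-/

namespace Pool.Agent.H.MP_906480_an

open Filter Topology MeasureTheory

section

variable (p q : Measure (ℕ → Bool)) [IsFiniteMeasure p] [IsFiniteMeasure q]

theorem measurableSet_node (j k : ℕ) : MeasurableSet {ω : ℕ → Bool | node ω j = k} :=
  (isClopen_node j {k}).isOpen.measurableSet

theorem measurableSet_nodes (j : ℕ) (S : Set ℕ) : MeasurableSet {ω : ℕ → Bool | node ω j ∈ S} :=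
  (isClopen_node j S).isOpen.measurableSet

theorem real_nodes (N : ℕ) (S : Set ℕ) :
    p.real {ω | node ω N ∈ S} = ∑ k ∈ Finset.Ico (2 ^ N) (2 ^ (N + 1)),
      S.indicator (fun k => p.real {ω | node ω N = k}) k := by
  classical
  have h1 : {ω : ℕ → Bool | node ω N ∈ S} =
      ⋃ k ∈ (Finset.Ico (2 ^ N) (2 ^ (N + 1))).filter (· ∈ S), {ω | node ω N = k} := by
    ext ω
    have h2 := node_lb ω N
    have h3 := node_ub ω N
    simp [h2, h3]
  rw [h1, measureReal_biUnion_finset]
  · rw [Finset.sum_filter]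
    refine Finset.sum_congr rfl fun k _ => ?_
    rw [Set.indicator_apply]
  · intro a _ b _ hab
    rw [Function.onFun, Set.disjoint_left]
    intro ω h1 h2
    exact hab (h1.symm.trans h2)
  · intro k _
    exact measurableSet_node N k

/-- The difference of two measures. -/
noncomputable def df (A : Set (ℕ → Bool)) : ℝ := p.real A - q.real A

theorem sum_eq_df {c : ℕ → ℝ}
    (hc : ∀ j k, 2 ^ j ≤ k → k < 2 ^ (j + 1) →
      p.real {ω | node ω j = k} - q.real {ω | node ω j = k} = c k) (S : Set ℕ) (N : ℕ) :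
    ∑ k ∈ Finset.Ico (2 ^ N) (2 ^ (N + 1)), S.indicator c k = df p q {ω | node ω N ∈ S} := by
  rw [df, real_nodes, real_nodes, ← Finset.sum_sub_distrib]
  refine Finset.sum_congr rfl fun k hk => ?_
  rw [Finset.mem_Ico] at hk
  by_cases h : k ∈ S
  · rw [Set.indicator_of_mem h, Set.indicator_of_mem h, Set.indicator_of_mem h,
      hc N k hk.1 hk.2]
  · rw [Set.indicator_of_notMem h, Set.indicator_of_notMem h, Set.indicator_of_notMem h, sub_zero]

theorem real_tendsto_iInter {A : ℕ → Set (ℕ → Bool)} (hA : ∀ n, MeasurableSet (A n))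
    (h : Antitone A) : Tendsto (fun n => p.real (A n)) atTop (𝓝 (p.real (⋂ n, A n))) :=
  (ENNReal.tendsto_toReal (measure_ne_top p _)).comp
    (tendsto_measure_iInter_atTop (fun n => (hA n).nullMeasurableSet) h
      ⟨0, measure_ne_top p _⟩)

theorem real_tendsto_iUnion {A : ℕ → Set (ℕ → Bool)}
    (h : Monotone A) : Tendsto (fun n => p.real (A n)) atTop (𝓝 (p.real (⋃ n, A n))) :=
  (ENNReal.tendsto_toReal (measure_ne_top p _)).comp (tendsto_measure_iUnion_atTop h)

theorem df_tendsto_iInter {A : ℕ → Set (ℕ → Bool)} (hA : ∀ n, MeasurableSet (A n))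
    (h : Antitone A) : Tendsto (fun n => df p q (A n)) atTop (𝓝 (df p q (⋂ n, A n))) :=
  (real_tendsto_iInter p hA h).sub (real_tendsto_iInter q hA h)

theorem df_tendsto_iUnion {A : ℕ → Set (ℕ → Bool)}
    (h : Monotone A) : Tendsto (fun n => df p q (A n)) atTop (𝓝 (df p q (⋃ n, A n))) :=
  (real_tendsto_iUnion p h).sub (real_tendsto_iUnion q h)

theorem df_union {A B : Set (ℕ → Bool)} (h : Disjoint A B) (hB : MeasurableSet B) :
    df p q (A ∪ B) = df p q A + df p q B := by
  unfold df
  rw [measureReal_union h hB, measureReal_union h hB]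
  ring

theorem iInter_node (π : ℕ → Bool) : ⋂ N, {ω | node ω N = node π N} = {π} := by
  ext ω
  simp only [Set.mem_iInter, Set.mem_ofPred_eq, Set.mem_singleton_iff]
  constructor
  · intro h
    funext i
    exact node_eq_iff.1 (h (i + 1)) i (by omega)
  · rintro rfl _
    rfl

theorem node_eq_of_le {ω ω' : ℕ → Bool} {j j' : ℕ} (h : j ≤ j')
    (e : node ω j' = node ω' j') : node ω j = node ω' j :=
  node_eq_iff.2 fun i hi => node_eq_iff.1 e i (lt_of_lt_of_le hi h)

theorem df_point_tendsto (π : ℕ → Bool) :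
    Tendsto (fun N => df p q {ω | node ω N = node π N}) atTop (𝓝 (df p q {π})) := by
  rw [← iInter_node π]
  apply df_tendsto_iInter p q (fun N => measurableSet_node N _)
  intro j j' h ω hω
  exact node_eq_of_le h hω

/-- The cylinders of level `N` avoided by `F`. -/
def Av (F : Set (ℕ → Bool)) (N : ℕ) : Set (ℕ → Bool) :=
  {ω | ∀ ω' ∈ F, node ω' N ≠ node ω N}

theorem measurableSet_Av (F : Set (ℕ → Bool)) (N : ℕ) : MeasurableSet (Av F N) :=
  measurableSet_nodes N {k | ∀ ω' ∈ F, node ω' N ≠ k}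

theorem Av_mono (F : Set (ℕ → Bool)) : Monotone (Av F) := by
  intro j j' h ω hω ω' hω' e
  exact hω ω' hω' (node_eq_of_le h e)

theorem iUnion_Av {F : Set (ℕ → Bool)} (hF : IsClosed F) : ⋃ N, Av F N = Fᶜ := by
  apply Set.Subset.antisymm
  · rintro ω hω hF'
    obtain ⟨N, hN⟩ := Set.mem_iUnion.1 hω
    exact hN ω hF' rfl
  · intro ω hω
    rw [Set.mem_iUnion]
    by_contra hcon
    push Not at hcon
    have h1 : ∀ N, ∃ ω' ∈ F, node ω' N = node ω N := by
      intro N
      have := hcon N
      unfold Av at this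
      simp only [Set.mem_ofPred_eq] at this
      push Not at this
      exact this
    choose f hfF hf using h1
    have h2 : Tendsto f atTop (𝓝 ω) := by
      rw [tendsto_pi_nhds]
      intro i
      refine tendsto_const_nhds.congr' ?_
      filter_upwards [eventually_gt_atTop i] with N hN
      exact (node_eq_iff.1 (hf N) i hN).symm
    exact hω (hF.mem_of_tendsto h2 (Eventually.of_forall hfF))

theorem df_Av_tendsto {F : Set (ℕ → Bool)} (hF : IsClosed F) :
    Tendsto (fun N => df p q (Av F N)) atTop (𝓝 (df p q Fᶜ)) := by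
  rw [← iUnion_Av hF]
  exact df_tendsto_iUnion p q (Av_mono F)

theorem exists_cover (hne : p ≠ q) (hpq : p ⟂ₘ q)
    (hat : ∀ τ, Valid τ → df p q {code τ} = 0) :
    ∃ G, IsCov G ∧ ∃ t : ℕ, df p q (Gᶜ ∩ {ω | ∃ j, node ω j = t}) ≠ 0 := by
  obtain ⟨S, hS, hpS, hqS⟩ := hpq
  have hat' : ∀ τ, Valid τ → (p + q) {code τ} = 0 := by
    intro τ hτ
    have h1 := hat τ hτ
    unfold df at h1
    have h2 : p {code τ} = q {code τ} := by
      rw [← measureReal_eq_measureReal_iff]
      linarith
    rw [Measure.add_apply]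
    by_cases hx : code τ ∈ S
    · have h3 : p {code τ} = 0 := measure_mono_null (by simpa using hx) hpS
      rw [← h2, h3, add_zero]
    · have h3 : q {code τ} = 0 := measure_mono_null (by simpa using hx) hqS
      rw [h2, h3, add_zero]
  have hm : p + q ≠ 0 := by
    intro h
    apply hne
    have h1 : p = 0 := by
      ext A hA
      have := congrArg (fun m : Measure (ℕ → Bool) => m A) h
      simp only [Measure.add_apply, Measure.coe_zero, Pi.zero_apply, add_eq_zero] at this
      simpa using this.1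
    have h2 : q = 0 := by
      ext A hA
      have := congrArg (fun m : Measure (ℕ → Bool) => m A) h
      simp only [Measure.add_apply, Measure.coe_zero, Pi.zero_apply, add_eq_zero] at this
      simpa using this.2
    rw [h1, h2]
  obtain ⟨G, hG, hG2⟩ := kill (p + q) hm hat'
  refine ⟨G, hG, ?_⟩
  by_contra hcon
  push Not at hcon
  have hGm : MeasurableSet Gᶜ := hG.isGδ_compl.measurableSet
  have hres : p.restrict Gᶜ = q.restrict Gᶜ := by
    apply measure_eq_of_node
    intro j k
    rw [Measure.restrict_apply (measurableSet_node j k),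
      Measure.restrict_apply (measurableSet_node j k)]
    by_cases he : ∃ ω0 : ℕ → Bool, node ω0 j = k
    · obtain ⟨ω0, h0⟩ := he
      have h1 := hcon k
      have h2 : {ω : ℕ → Bool | ∃ j, node ω j = k} = {ω | node ω j = k} := by
        ext ω
        constructor
        · rintro ⟨j', hj'⟩
          have := node_inj_level (hj'.trans h0.symm)
          subst this
          exact hj'
        · intro h
          exact ⟨j, h⟩
      rw [h2, Set.inter_comm] at h1
      unfold df at h1
      rw [← measureReal_eq_measureReal_iff]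
      linarith
    · have h1 : {ω : ℕ → Bool | node ω j = k} = ∅ := by
        ext ω
        simp only [Set.mem_ofPred_eq, Set.mem_empty_iff_false, iff_false]
        exact fun h => he ⟨ω, h⟩
      rw [h1]
      simp
  apply hG2
  have hp0 : p Gᶜ = 0 := by
    have h1 : (p.restrict Gᶜ) Set.univ = 0 := by
      rw [← Set.union_compl_self S]
      apply measure_union_null
      · exact le_antisymm (le_trans (Measure.restrict_apply_le _ _) hpS.le) zero_le
      · rw [hres]
        exact le_antisymm (le_trans (Measure.restrict_apply_le _ _) hqS.le) zero_le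
    simpa using h1
  have hq0 : q Gᶜ = 0 := by
    have h1 : (q.restrict Gᶜ) Set.univ = 0 := by
      rw [← hres]
      simpa using hp0
    simpa using h1
  rw [Measure.add_apply, hp0, hq0, add_zero]

end

theorem exists_F {A : Set (ℕ → Bool)} (hA : IsGδ Aᶜ) :
    ∃ F : ℕ → Set (ℕ → Bool), (∀ i, IsClosed (F i)) ∧ Monotone F ∧ ⋃ i, F i = A := by
  obtain ⟨f, hf, hfA⟩ := isGδ_iff_eq_iInter_nat.1 hA
  refine ⟨fun i => ⋃ n ∈ Finset.range (i + 1), (f n)ᶜ, ?_, ?_, ?_⟩
  · intro i
    exact isClosed_biUnion_finset fun n _ => (hf n).isClosed_compl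
  · intro i i' h
    apply Set.biUnion_subset_biUnion_left
    intro n hn
    simp only [Finset.coe_range, Set.mem_Iio] at hn ⊢
    omega
  · rw [← compl_compl A, hfA, Set.compl_iInter]
    ext ω
    simp only [Set.mem_iUnion, Finset.mem_range]
    constructor
    · rintro ⟨i, n, _, h⟩
      exact ⟨n, h⟩
    · rintro ⟨n, h⟩
      exact ⟨n, n, by omega, h⟩

theorem isGδ_target (x : Q) :
    IsGδ ((x.1.1 ∪ {ω : ℕ → Bool | ∃ j, node ω j = x.2.1}ᶜ)ᶜ) := by
  rw [Set.compl_union, compl_compl]
  apply x.1.2.isGδ_compl.inter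
  apply IsOpen.isGδ
  have : {ω : ℕ → Bool | ∃ j, node ω j = x.2.1} = ⋃ j, {ω | node ω j ∈ ({x.2.1} : Set ℕ)} := by
    ext ω
    simp
  rw [this]
  exact isOpen_iUnion fun j => (isClopen_node j _).isOpen

/-- The closed sets attached to a test. -/
noncomputable def FF (x : Q) : ℕ → Set (ℕ → Bool) := (exists_F (isGδ_target x)).choose

theorem FF_closed (x : Q) (i : ℕ) : IsClosed (FF x i) :=
  (exists_F (isGδ_target x)).choose_spec.1 i

theorem FF_mono (x : Q) : Monotone (FF x) := (exists_F (isGδ_target x)).choose_spec.2.1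

theorem iUnion_FF (x : Q) :
    ⋃ i, FF x i = x.1.1 ∪ {ω : ℕ → Bool | ∃ j, node ω j = x.2.1}ᶜ :=
  (exists_F (isGδ_target x)).choose_spec.2.2

theorem code_mem_FF (x : Q) {τ : List Fn} (hτ : Valid τ) : ∀ᶠ i in atTop, code τ ∈ FF x i := by
  have h : code τ ∈ ⋃ i, FF x i := by
    rw [iUnion_FF]
    exact Or.inl (x.1.2.mem hτ)
  obtain ⟨i, hi⟩ := Set.mem_iUnion.1 h
  filter_upwards [eventually_ge_atTop i] with i' hi'
  exact FF_mono x hi' hi

/-- The growth function of a test. -/
def hh (x : Q) : ℕ → ℕ := fun i => (x.2.2.1.1 i + x.2.2.2).toNat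

theorem core_exists : ∃ (P : Set (ℕ → Bool)) (b : (ℕ → Bool) → Set ℕ), Core P b := by
  classical
  obtain ⟨s, hs⟩ := exists_surj
  let cd : V → (ℕ → Bool) := fun τ => code τ.1
  have hcd : Function.Injective cd := fun a b h => Subtype.ext (code_injective h)
  have : Nonempty V := ⟨⟨[], trivial⟩⟩
  let inv : (ℕ → Bool) → V := Function.invFun cd
  have hinv : ∀ τ, inv (cd τ) = τ := Function.leftInverse_invFun hcd
  let b : (ℕ → Bool) → Set ℕ := fun π => Bs π (hh (s (inv π))) (FF (s (inv π)))
  refine ⟨Set.range cd, b, codes_not_countable, ?_, ?_, ?_, ?_⟩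
  · intro π _ j
    exact Or.inl ⟨j, rfl⟩
  · intro π _
    exact zero_notMem_Bs _ _ _
  · rintro _ ⟨τ, rfl⟩ _ ⟨τ', rfl⟩ hne
    exact Bs_inter_finite hne (code_mem_FF _ τ'.2) (code_mem_FF _ τ.2)
  · intro c hadd hbv hlim
    obtain ⟨p, q, hp, hq, hpq, hc⟩ := exists_pq c hadd hbv
    have hlim' : ∀ τ : V, Tendsto (fun N => df p q {ω | node ω N ∈ b (cd τ)}) atTop (𝓝 0) := by
      intro τ
      have := hlim (cd τ) ⟨τ, rfl⟩
      simp only [sum_eq_df p q hc] at this
      exact this
    -- atoms
    have hat : ∀ τ, Valid τ → df p q {code τ} = 0 := by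
      intro τ hτ
      have h1 := (df_point_tendsto p q (code τ)).sub (hlim' ⟨τ, hτ⟩)
      rw [sub_zero] at h1
      refine isClosed_singleton.mem_of_frequently_of_tendsto (s := ({0} : Set ℝ)) ?_ h1
      refine (frequently_notMem_range (code τ) (hh (s (inv (code τ))))).mono ?_
      intro N hN
      have h2 : {ω : ℕ → Bool | node ω N ∈ b (cd ⟨τ, hτ⟩)} = {ω | node ω N = node (code τ) N} := by
        ext ω
        exact node_mem_Bs_of_notMem hN ω
      rw [h2, Set.mem_singleton_iff, sub_self]
    -- equality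
    have heq : p = q := by
      by_contra hne
      obtain ⟨G, hG, t, ht⟩ := exists_cover p q hne hpq hat
      obtain ⟨x0, hx0, j0, -⟩ := X_nil_dom 0
      let F : ℕ → Set (ℕ → Bool) := FF (⟨G, hG⟩, t, ⟨x0, hx0⟩, j0)
      have hFc : ∀ i, IsClosed (F i) := FF_closed _
      have hFm : Monotone F := FF_mono _
      have hFU : ⋃ i, F i = G ∪ {ω : ℕ → Bool | ∃ j, node ω j = t}ᶜ := iUnion_FF _
      have hg : ∀ i : ℕ, ∃ g : ℕ, ∀ N, g ≤ N →
          |df p q (Av (F i) N) - df p q (F i)ᶜ| ≤ 1 / ((i : ℝ) + 1) := by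
        intro i
        obtain ⟨g, hg⟩ := Metric.tendsto_atTop.1 (df_Av_tendsto p q (hFc i))
          (1 / ((i : ℝ) + 1)) (by positivity)
        exact ⟨g, fun N hN => (hg N hN).le⟩
      choose g hg using hg
      obtain ⟨x, hx, j, hj⟩ := X_nil_dom g
      obtain ⟨τ, hτ⟩ := hs (⟨G, hG⟩, t, ⟨x, hx⟩, j)
      let π : ℕ → Bool := cd τ
      let h' : ℕ → ℕ := fun i => (x i + j).toNat
      have hb : b π = Bs π h' F := by
        show Bs π (hh (s (inv (cd τ)))) (FF (s (inv (cd τ)))) = _
        rw [hinv, hτ]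
        rfl
      have hπF : ∀ᶠ i in atTop, π ∈ F i := code_mem_FF _ τ.2
      have h1 : Tendsto (fun i => df p q {ω | node ω (Lv π h' i) ∈ b π}) atTop (𝓝 0) :=
        (hlim' τ).comp (Lv_tendsto _ _)
      have h2 : Tendsto (fun i => df p q {ω | node ω (Lv π h' i) = node π (Lv π h' i)}) atTop
          (𝓝 0) := by
        have := (df_point_tendsto p q π).comp (Lv_tendsto π h')
        have h0 : df p q {π} = 0 := hat τ.1 τ.2
        rw [h0] at this
        exact this
      have h3 : Tendsto (fun i => df p q (F i)ᶜ) atTop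
          (𝓝 (df p q (Gᶜ ∩ {ω | ∃ j, node ω j = t}))) := by
        have h4 : Gᶜ ∩ {ω : ℕ → Bool | ∃ j, node ω j = t} = ⋂ i, (F i)ᶜ := by
          rw [← Set.compl_iUnion, hFU, Set.compl_union, compl_compl]
        rw [h4]
        apply df_tendsto_iInter p q (fun i => (hFc i).isOpen_compl.measurableSet)
        intro i i' hi
        exact Set.compl_subset_compl.2 (hFm hi)
      have h4 : Tendsto (fun i : ℕ => |df p q {ω | node ω (Lv π h' i) ∈ b π} -
          df p q {ω | node ω (Lv π h' i) = node π (Lv π h' i)} - df p q (F i)ᶜ| -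
          1 / ((i : ℝ) + 1)) atTop
          (𝓝 (|0 - 0 - df p q (Gᶜ ∩ {ω | ∃ j, node ω j = t})| - 0)) :=
        (((h1.sub h2).sub h3).abs).sub tendsto_one_div_add_atTop_nhds_zero_nat
      have h5 : ∃ᶠ i : ℕ in atTop, |df p q {ω | node ω (Lv π h' i) ∈ b π} -
          df p q {ω | node ω (Lv π h' i) = node π (Lv π h' i)} - df p q (F i)ᶜ| -
          1 / ((i : ℝ) + 1) ∈ Set.Iic (0 : ℝ) := by
        refine (hj.and_eventually hπF).mono ?_
        rintro i ⟨hi1, hi2⟩
        have h6 : {ω : ℕ → Bool | node ω (Lv π h' i) ∈ b π} =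
            {ω | node ω (Lv π h' i) = node π (Lv π h' i)} ∪ Av (F i) (Lv π h' i) := by
          ext ω
          rw [hb]
          exact node_mem_Bs_of_level i ω
        have h7 : Disjoint {ω : ℕ → Bool | node ω (Lv π h' i) = node π (Lv π h' i)}
            (Av (F i) (Lv π h' i)) := by
          rw [Set.disjoint_left]
          intro ω e1 e2
          exact e2 π hi2 e1.symm
        rw [h6, df_union p q h7 (measurableSet_Av _ _)]
        have h8 : g i ≤ Lv π h' i := le_trans hi1 (le_trans (le_Hs h' i) (id_le_Lv π h' i))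
        have h9 := hg i _ h8
        simp only [Set.mem_Iic]
        rw [add_sub_cancel_left]
        linarith
      have h6 := isClosed_Iic.mem_of_frequently_of_tendsto h5 h4
      simp only [Set.mem_Iic, sub_zero, zero_sub, abs_neg] at h6
      exact ht (abs_eq_zero.1 (le_antisymm h6 (abs_nonneg _)))
    intro k hk
    obtain ⟨l, h1, h2⟩ := exists_level hk
    rw [← hc l k h1 h2, heq, sub_self]

end Pool.Agent.H.MP_906480_an
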