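import Pool.Agent.H.MP_906480_an.Space

/-!
Existence of expansions in the dual of the space.
-/

namespace Pool.Agent.H.MP_906480_an

open Filter Topology BoundedContinuousFunction

variable {𝕜 : Type*} [RCLike 𝕜]

variable (𝕜) in
/-- The functional `y ↦ y (i + 1) - y ((i + 1) / 2)` on the ambient space. -/
noncomputable def fA (i : ℕ) : StrongDual 𝕜 (ℕ →ᵇ 𝕜) :=
  (evalCLM 𝕜 (i + 1) : (ℕ →ᵇ 𝕜) →L[𝕜] 𝕜) - evalCLM 𝕜 ((i + 1) / 2)

theorem fA_apply (i : ℕ) (y : ℕ →ᵇ 𝕜) : fA 𝕜 i y = y (i + 1) - y ((i + 1) / 2) := rfl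

variable (𝕜) in
/-- The weak* basis. -/
noncomputable def fF (P : Set (ℕ → Bool)) (b : (ℕ → Bool) → Set ℕ) (i : ℕ) :
    StrongDual 𝕜 (Sp 𝕜 P b) := (fA 𝕜 i).comp (Sp 𝕜 P b).subtypeL

theorem fF_apply (P : Set (ℕ → Bool)) (b : (ℕ → Bool) → Set ℕ) (i : ℕ) (y : Sp 𝕜 P b) :
    fF 𝕜 P b i y = (y : ℕ →ᵇ 𝕜) (i + 1) - (y : ℕ →ᵇ 𝕜) ((i + 1) / 2) := rfl

theorem ind_split {S : Set ℕ} (h0 : 0 ∉ S) (n : ℕ) :
    ind 𝕜 S = ind 𝕜 (S ∩ {k | n < k}) +
      ∑ s ∈ Finset.range n, ind 𝕜 S (s + 1) • ind 𝕜 {s + 1} := by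
  ext k
  rw [BoundedContinuousFunction.add_apply, BoundedContinuousFunction.sum_apply]
  cases k with
  | zero =>
    rw [ind_apply_notMem h0, ind_apply_notMem (fun h => h0 h.1), Finset.sum_eq_zero, add_zero]
    intro s _
    rw [BoundedContinuousFunction.smul_apply, ind_apply_notMem (S := {s + 1}) (k := 0) (by simp),
      smul_zero]
  | succ m =>
    by_cases hm : m < n
    · rw [ind_apply_notMem (S := S ∩ {k | n < k})
        (fun h => by have := h.2; simp only [Set.mem_ofPred_eq] at this; omega), zero_add,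
        Finset.sum_eq_single m]
      · rw [BoundedContinuousFunction.smul_apply, ind_apply_mem (S := {m + 1}) (by simp),
          smul_eq_mul, mul_one]
      · intro s _ hs
        rw [BoundedContinuousFunction.smul_apply,
          ind_apply_notMem (S := {s + 1}) (by simp; omega), smul_zero]
      · intro h
        exact absurd (Finset.mem_range.2 hm) h
    · rw [Finset.sum_eq_zero, add_zero]
      · by_cases h : m + 1 ∈ S
        · rw [ind_apply_mem h, ind_apply_mem (S := S ∩ {k | n < k})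
            ⟨h, by simp only [Set.mem_ofPred_eq]; omega⟩]
        · rw [ind_apply_notMem h, ind_apply_notMem (fun h' => h h'.1)]
      · intro s hs
        rw [Finset.mem_range] at hs
        rw [BoundedContinuousFunction.smul_apply,
          ind_apply_notMem (S := {s + 1}) (by simp; omega), smul_zero]

theorem exists_coef {P : Set (ℕ → Bool)} {b : (ℕ → Bool) → Set ℕ} (hcore : Core P b)
    (φ : StrongDual 𝕜 (Sp 𝕜 P b)) : ∃ a : ℕ → 𝕜, ∀ x,
      Tendsto (fun n => ∑ i ∈ Finset.range n, a i * fF 𝕜 P b i x) atTop (𝓝 (φ x)) := by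
  classical
  obtain ⟨-, hbr, hb0, had, -⟩ := hcore
  obtain ⟨Φ, hΦ, -⟩ := exists_extension_norm_eq _ φ
  let γ : ℕ → 𝕜 := fun s => Φ (ind 𝕜 {s + 1})
  have hγ : Summable (fun s => ‖γ s‖) := by
    refine summable_of_sum_le (c := ‖Φ‖) (fun _ => norm_nonneg _) (fun u => ?_)
    refine sum_norm_le Φ u (fun s => {s + 1}) ?_
    intro i _ j _ hij
    simp only [Set.disjoint_singleton]
    omega
  have hγS : ∀ S : Set ℕ, Summable (fun s => γ s * ind 𝕜 S (s + 1)) := by
    intro S
    refine Summable.of_norm_bounded hγ ?_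
    intro s
    rw [norm_mul]
    have h1 : ‖ind 𝕜 S (s + 1)‖ ≤ 1 := by
      by_cases h : s + 1 ∈ S
      · rw [ind_apply_mem h]; simp
      · rw [ind_apply_notMem h]; simp
    calc ‖γ s‖ * ‖ind 𝕜 S (s + 1)‖ ≤ ‖γ s‖ * 1 := mul_le_mul_of_nonneg_left h1 (norm_nonneg _)
      _ = ‖γ s‖ := mul_one _
  let γ' : P → 𝕜 := fun p => Φ (ind 𝕜 (b p)) - ∑' s, γ s * ind 𝕜 (b p) (s + 1)
  have key : ∀ p : P, Tendsto (fun n : ℕ => Φ (ind 𝕜 (b p ∩ {k | n < k}))) atTop (𝓝 (γ' p)) := by
    intro p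
    have h1 := (hγS (b p)).hasSum.tendsto_sum_nat
    have h2 := (tendsto_const_nhds (x := Φ (ind 𝕜 (b p)))).sub h1
    refine h2.congr fun n => ?_
    have h3 := congrArg Φ (ind_split (𝕜 := 𝕜) (hb0 p p.2) n)
    rw [map_add, map_sum] at h3
    rw [h3, add_sub_assoc, ← Finset.sum_sub_distrib, Finset.sum_eq_zero, add_zero]
    intro s _
    rw [map_smul, smul_eq_mul]
    simp only [γ]
    ring
  have hγ' : Summable (fun p => ‖γ' p‖) := by
    refine summable_of_sum_le (c := ‖Φ‖) (fun _ => norm_nonneg _) (fun u => ?_)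
    have h1 : Tendsto (fun n : ℕ => ∑ p ∈ u, ‖Φ (ind 𝕜 (b p ∩ {k | n < k}))‖) atTop
        (𝓝 (∑ p ∈ u, ‖γ' p‖)) := tendsto_finsetSum _ fun p _ => (key p).norm
    refine le_of_tendsto h1 ?_
    have h2 : ∀ᶠ n : ℕ in atTop, ∀ p ∈ u, ∀ q ∈ u, p ≠ q →
        Disjoint (b p ∩ {k | n < k}) (b q ∩ {k | n < k}) := by
      rw [Filter.eventually_all_finset]
      intro p _
      rw [Filter.eventually_all_finset]
      intro q _
      by_cases hpq : p = q
      · exact Eventually.of_forall fun n h => absurd hpq h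
      · have hfin := had p p.2 q q.2 (fun h => hpq (Subtype.ext h))
        obtain ⟨m, hm⟩ := hfin.bddAbove
        filter_upwards [eventually_ge_atTop m] with n hn _
        rw [Set.disjoint_left]
        rintro k ⟨h3, h4⟩ ⟨h5, -⟩
        have := hm ⟨h3, h5⟩
        simp only [Set.mem_ofPred_eq] at h4
        omega
    filter_upwards [h2] with n hn
    exact sum_norm_le Φ u (fun p : P => b p ∩ {k | n < k}) hn
  let A1 : ℕ → Set ℕ := fun s => anc (s + 1)
  let A2 : P → Set ℕ := fun p => Set.range (node p)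
  have hA1 : ∀ s, IsPath (A1 s) := fun s => isPath_anc _
  have hA2 : ∀ p, IsPath (A2 p) := fun p => isPath_branch _
  let a : ℕ → 𝕜 := fun i => coef γ A1 i + coef γ' A2 i
  refine ⟨a, ?_⟩
  let R : ℕ → (ℕ →ᵇ 𝕜) →ₗ[𝕜] 𝕜 := fun n =>
    ((∑ i ∈ Finset.range n, a i • fA 𝕜 i - Φ : StrongDual 𝕜 (ℕ →ᵇ 𝕜)) : (ℕ →ᵇ 𝕜) →ₗ[𝕜] 𝕜)
  have hR : ∀ n y, R n y = ∑ i ∈ Finset.range n, coef γ A1 i * (y (i + 1) - y ((i + 1) / 2)) +
      ∑ i ∈ Finset.range n, coef γ' A2 i * (y (i + 1) - y ((i + 1) / 2)) - Φ y := by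
    intro n y
    simp only [R, a]
    rw [ContinuousLinearMap.coe_coe, _root_.sub_apply, _root_.sum_apply,
      ← Finset.sum_add_distrib]
    congr 1
    refine Finset.sum_congr rfl fun i _ => ?_
    rw [_root_.smul_apply, fA_apply, smul_eq_mul]
    ring
  have hbound : ∀ n y, ‖R n y‖ ≤ ((∑' s, ‖γ s‖) * 2 + (∑' p, ‖γ' p‖) * 2 + ‖Φ‖) * ‖y‖ := by
    intro n y
    have h1 := norm_sum_coef_le hγ hA1 y (C := ‖y‖) (fun k => y.norm_coe_le_norm k) n
    have h2 := norm_sum_coef_le hγ' hA2 y (C := ‖y‖) (fun k => y.norm_coe_le_norm k) n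
    have h3 := Φ.le_opNorm y
    rw [hR]
    refine (norm_sub_le _ _).trans ?_
    refine (add_le_add_left (norm_add_le _ _) _).trans ?_
    calc _ ≤ (∑' s, ‖γ s‖) * (2 * ‖y‖) + (∑' p, ‖γ' p‖) * (2 * ‖y‖) + ‖Φ‖ * ‖y‖ := by
          gcongr
      _ = _ := by ring
  have hgen : ∀ y ∈ gens 𝕜 P b, Tendsto (fun n => R n y) atTop (𝓝 0) := by
    -- a general statement
    have main : ∀ (y : ℕ →ᵇ 𝕜) (L : P → 𝕜), y 0 = 0 →
        (∀ p : P, Tendsto (fun n => y (lst (A2 p) n)) atTop (𝓝 (L p))) →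
        Φ y = ∑' s, γ s * y (s + 1) + ∑' p, γ' p * L p →
        Tendsto (fun n => R n y) atTop (𝓝 0) := by
      intro y L hy0 hL hΦy
      have h1 := tendsto_sum_coef hγ hA1 y (C := ‖y‖) (fun k => y.norm_coe_le_norm k) hy0
        (fun s => y (s + 1)) (fun s => by
          refine tendsto_const_nhds.congr' ?_
          filter_upwards [eventually_ge_atTop (s + 1)] with n hn
          simp only [A1]
          rw [lst_anc (by omega) hn])
      have h2 := tendsto_sum_coef hγ' hA2 y (C := ‖y‖) (fun k => y.norm_coe_le_norm k) hy0 L hL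
      have h3 := (h1.add h2).sub (tendsto_const_nhds (x := Φ y))
      rw [← hΦy, sub_self] at h3
      refine h3.congr fun n => ?_
      rw [hR]
    rintro _ (⟨k, hk, rfl⟩ | ⟨q, hq, rfl⟩)
    · refine main _ (fun _ => 0) (ind_apply_notMem (by simp; omega)) ?_ ?_
      · intro p
        refine tendsto_const_nhds.congr' ?_
        filter_upwards [(lst_branch_tendsto (p : ℕ → Bool)).eventually_gt_atTop k] with n hn
        rw [ind_apply_notMem]
        simp only [Set.mem_singleton_iff, A2]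
        omega
      · rw [tsum_eq_single (k - 1)]
        · have hk1 : k - 1 + 1 = k := by omega
          simp only [γ]
          rw [hk1, ind_apply_mem (by simp)]
          simp
        · intro s hs
          rw [ind_apply_notMem, mul_zero]
          simp only [Set.mem_singleton_iff]
          omega
    · refine main _ (fun p => if (p : ℕ → Bool) = q then 1 else 0)
        (ind_apply_notMem (hb0 q hq)) ?_ ?_
      · intro p
        refine tendsto_const_nhds.congr' ?_
        by_cases hpq : (p : ℕ → Bool) = q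
        · filter_upwards [eventually_ge_atTop 1] with n hn
          rw [if_pos hpq, ind_apply_mem]
          obtain ⟨j, hj⟩ := lst_branch_mem (p : ℕ → Bool) hn
          simp only [A2]
          rw [← hj, hpq]
          exact hbr q hq j
        · rw [if_neg hpq]
          obtain ⟨m, hm⟩ := (had p p.2 q hq hpq).bddAbove
          filter_upwards [(lst_branch_tendsto (p : ℕ → Bool)).eventually_gt_atTop m,
            eventually_ge_atTop 1] with n hn hn1
          rw [ind_apply_notMem]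
          intro h
          obtain ⟨j, hj⟩ := lst_branch_mem (p : ℕ → Bool) hn1
          have h5 : lst (Set.range (node p)) n ∈ b p := by
            rw [← hj]
            exact hbr p p.2 j
          have := hm ⟨h5, h⟩
          omega
      · rw [tsum_eq_single (⟨q, hq⟩ : P)]
        · simp only [γ', if_true, mul_one]
          ring
        · intro p hp
          rw [if_neg, mul_zero]
          intro h
          exact hp (Subtype.ext h)
  intro x
  have h1 := tendsto_of_closure R _ hbound (gens 𝕜 P b) hgen (x : ℕ →ᵇ 𝕜) x.2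
  have h2 := h1.add_const (φ x)
  rw [zero_add] at h2
  refine h2.congr fun n => ?_
  rw [hR, hΦ, sub_add_cancel, ← Finset.sum_add_distrib]
  refine Finset.sum_congr rfl fun i _ => ?_
  rw [fF_apply]
  simp only [a]
  ring

end Pool.Agent.H.MP_906480_an
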