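import Pool.Agent.H.MP_906480_an.Chains

/-!
The kill lemma at one node of the tree of chains.
-/

namespace Pool.Agent.H.MP_906480_an

open Filter Topology MeasureTheory

variable {Ω : Type*} [MeasurableSpace Ω] {m : Measure Ω} [IsFiniteMeasure m]
  {Y : Ω → Fn}

theorem measurableSet_ev_le (hY : ∀ n, Measurable (fun ω => Y ω n)) (v : Fn) :
    MeasurableSet {ω | ∀ᶠ n in atTop, Y ω n ≤ v n} := by
  have : {ω | ∀ᶠ n in atTop, Y ω n ≤ v n} = ⋃ N : ℕ, ⋂ n ≥ N, {ω | Y ω n ≤ v n} := by
    ext ω; simp [eventually_atTop]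
  rw [this]
  exact MeasurableSet.iUnion fun N => MeasurableSet.biInter (Set.to_countable _)
    fun n _ => measurableSet_le (hY n) measurable_const

theorem measurableSet_ev_ge (hY : ∀ n, Measurable (fun ω => Y ω n)) (v : Fn) :
    MeasurableSet {ω | ∀ᶠ n in atTop, v n ≤ Y ω n} := by
  have : {ω | ∀ᶠ n in atTop, v n ≤ Y ω n} = ⋃ N : ℕ, ⋂ n ≥ N, {ω | v n ≤ Y ω n} := by
    ext ω; simp [eventually_atTop]
  rw [this]
  exact MeasurableSet.iUnion fun N => MeasurableSet.biInter (Set.to_countable _)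
    fun n _ => measurableSet_le measurable_const (hY n)

theorem measurableSet_prec_right (hY : ∀ n, Measurable (fun ω => Y ω n)) (x : Fn) :
    MeasurableSet {ω | Prec (Y ω) x} := by
  have : {ω | Prec (Y ω) x} = ⋂ k : ℤ, {ω | ∀ᶠ n in atTop, Y ω n ≤ x n - k} := by
    ext ω; simp [Prec, le_sub_iff_add_le]
  rw [this]
  exact MeasurableSet.iInter fun k => measurableSet_ev_le hY (fun n => x n - k)

theorem measurableSet_prec_left (hY : ∀ n, Measurable (fun ω => Y ω n)) (x : Fn) :
    MeasurableSet {ω | Prec x (Y ω)} := by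
  have : {ω | Prec x (Y ω)} = ⋂ k : ℤ, {ω | ∀ᶠ n in atTop, x n + k ≤ Y ω n} := by
    ext ω; simp [Prec]
  rw [this]
  exact MeasurableSet.iInter fun k => measurableSet_ev_ge hY (fun n => x n + k)

/-- Quantile function. -/
theorem exists_quantile (hY : ∀ n, Measurable (fun ω => Y ω n)) {t : ℝ} (ht0 : 0 < t)
    (ht1 : t < m.real Set.univ) :
    ∃ Q : Fn, ∀ n, t < m.real {ω | Y ω n ≤ Q n} ∧ m.real {ω | Y ω n ≤ Q n - 1} ≤ t := by
  have key : ∀ n, ∃ q : ℤ, t < m.real {ω | Y ω n ≤ q} ∧ m.real {ω | Y ω n ≤ q - 1} ≤ t := by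
    intro n
    -- upper
    have hup : Tendsto (fun N : ℕ => m.real {ω | Y ω n ≤ (N : ℤ)}) atTop
        (𝓝 (m.real Set.univ)) := by
      have hmono : Monotone (fun N : ℕ => {ω | Y ω n ≤ (N : ℤ)}) := by
        intro a b hab ω hω
        simp only [Set.mem_ofPred_eq] at hω ⊢
        exact hω.trans (by exact_mod_cast hab)
      have h := tendsto_measure_iUnion_atTop (μ := m) hmono
      have hU : (⋃ N : ℕ, {ω | Y ω n ≤ (N : ℤ)}) = Set.univ := by
        ext ω
        simp only [Set.mem_iUnion, Set.mem_ofPred_eq, Set.mem_univ, iff_true]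
        exact ⟨(Y ω n).toNat, Int.self_le_toNat _⟩
      rw [hU] at h
      exact (ENNReal.tendsto_toReal (measure_ne_top m _)).comp h
    have hdn : Tendsto (fun N : ℕ => m.real {ω | Y ω n ≤ -(N : ℤ)}) atTop (𝓝 0) := by
      have hanti : Antitone (fun N : ℕ => {ω | Y ω n ≤ -(N : ℤ)}) := by
        intro a b hab ω hω
        simp only [Set.mem_ofPred_eq] at hω ⊢
        have : (a : ℤ) ≤ b := by exact_mod_cast hab
        omega
      have h := tendsto_measure_iInter_atTop (μ := m) (s := fun N : ℕ => {ω | Y ω n ≤ -(N : ℤ)})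
        (fun N => (measurableSet_le (hY n) measurable_const).nullMeasurableSet) hanti
        ⟨0, measure_ne_top m _⟩
      have hI : (⋂ N : ℕ, {ω | Y ω n ≤ -(N : ℤ)}) = ∅ := by
        ext ω
        simp only [Set.mem_iInter, Set.mem_ofPred_eq, Set.mem_empty_iff_false, iff_false,
          not_forall, not_le]
        refine ⟨(-(Y ω n)).toNat + 1, ?_⟩
        have := Int.self_le_toNat (-(Y ω n))
        push_cast
        omega
      rw [hI, measure_empty] at h
      have := (ENNReal.tendsto_toReal ENNReal.zero_ne_top).comp h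
      rw [ENNReal.toReal_zero] at this
      exact this
    obtain ⟨N1, hN1⟩ := ((tendsto_order.1 hup).1 t ht1).exists
    obtain ⟨N2, hN2⟩ := ((tendsto_order.1 hdn).2 t ht0).exists
    have hbd : ∃ b : ℤ, ∀ z : ℤ, t < m.real {ω | Y ω n ≤ z} → b ≤ z := by
      refine ⟨-(N2 : ℤ), fun z hz => ?_⟩
      by_contra hlt
      push Not at hlt
      have : m.real {ω | Y ω n ≤ z} ≤ m.real {ω | Y ω n ≤ -(N2 : ℤ)} := by
        apply measureReal_mono _ (measure_ne_top m _)
        intro ω hω
        simp only [Set.mem_ofPred_eq] at hω ⊢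
        omega
      linarith
    obtain ⟨q, hq, hqmin⟩ := Int.exists_least_of_bdd hbd ⟨N1, hN1⟩
    refine ⟨q, hq, ?_⟩
    by_contra hlt
    push Not at hlt
    have := hqmin (q - 1) hlt
    omega
  choose Q hQ using key
  exact ⟨Q, hQ⟩

theorem quantile_le (hY : ∀ n, Measurable (fun ω => Y ω n)) {t : ℝ} {Q : Fn}
    (hQ : ∀ n, t < m.real {ω | Y ω n ≤ Q n} ∧ m.real {ω | Y ω n ≤ Q n - 1} ≤ t) {v : Fn}
    (hv : t < m.real {ω | ∀ᶠ n in atTop, Y ω n ≤ v n}) : ∀ᶠ n in atTop, Q n ≤ v n := by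
  have hmono : Monotone (fun N : ℕ => {ω | ∀ n ≥ N, Y ω n ≤ v n}) := by
    intro a b hab ω hω n hn
    exact hω n (le_trans hab hn)
  have h := tendsto_measure_iUnion_atTop (μ := m) hmono
  have hU : (⋃ N : ℕ, {ω | ∀ n ≥ N, Y ω n ≤ v n}) = {ω | ∀ᶠ n in atTop, Y ω n ≤ v n} := by
    ext ω; simp [eventually_atTop]
  rw [hU] at h
  have h' := (ENNReal.tendsto_toReal (measure_ne_top m _)).comp h
  obtain ⟨N, hN⟩ := ((tendsto_order.1 h').1 t hv).exists
  filter_upwards [eventually_ge_atTop N] with n hn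
  by_contra hlt
  push Not at hlt
  have h1 : m.real {ω | ∀ n ≥ N, Y ω n ≤ v n} ≤ m.real {ω | Y ω n ≤ Q n - 1} := by
    apply measureReal_mono _ (measure_ne_top m _)
    intro ω hω
    have := hω n hn
    simp only [Set.mem_ofPred_eq]
    omega
  have h2 := (hQ n).2
  have h3 : t < m.real {ω | ∀ n ≥ N, Y ω n ≤ v n} := hN
  linarith

theorem quantile_ge (hY : ∀ n, Measurable (fun ω => Y ω n)) {t : ℝ} {Q : Fn}
    (hQ : ∀ n, t < m.real {ω | Y ω n ≤ Q n} ∧ m.real {ω | Y ω n ≤ Q n - 1} ≤ t) {v : Fn}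
    (hv : m.real Set.univ - t < m.real {ω | ∀ᶠ n in atTop, v n ≤ Y ω n}) :
    ∀ᶠ n in atTop, v n ≤ Q n := by
  have hmono : Monotone (fun N : ℕ => {ω | ∀ n ≥ N, v n ≤ Y ω n}) := by
    intro a b hab ω hω n hn
    exact hω n (le_trans hab hn)
  have h := tendsto_measure_iUnion_atTop (μ := m) hmono
  have hU : (⋃ N : ℕ, {ω | ∀ n ≥ N, v n ≤ Y ω n}) = {ω | ∀ᶠ n in atTop, v n ≤ Y ω n} := by
    ext ω; simp [eventually_atTop]
  rw [hU] at h
  have h' := (ENNReal.tendsto_toReal (measure_ne_top m _)).comp h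
  obtain ⟨N, hN⟩ := ((tendsto_order.1 h').1 _ hv).exists
  filter_upwards [eventually_ge_atTop N] with n hn
  by_contra hlt
  push Not at hlt
  have h1 : m.real {ω | ∀ n ≥ N, v n ≤ Y ω n} ≤ m.real {ω | v n ≤ Y ω n} := by
    apply measureReal_mono _ (measure_ne_top m _)
    intro ω hω
    exact hω n hn
  have h2 := (hQ n).1
  have h3 : m.real Set.univ - t < m.real {ω | ∀ n ≥ N, v n ≤ Y ω n} := hN
  have hdisj : Disjoint {ω | Y ω n ≤ Q n} {ω | v n ≤ Y ω n} := by
    rw [Set.disjoint_left]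
    intro ω h1 h2
    simp only [Set.mem_ofPred_eq] at h1 h2
    omega
  have h4 := measureReal_union (μ := m) hdisj (measurableSet_le measurable_const (hY n))
  have h5 : m.real ({ω | Y ω n ≤ Q n} ∪ {ω | v n ≤ Y ω n}) ≤ m.real Set.univ :=
    measureReal_mono (Set.subset_univ _) (measure_ne_top m _)
  linarith

theorem quantile_prec (hY : ∀ n, Measurable (fun ω => Y ω n)) {t : ℝ} {Q : Fn}
    (hQ : ∀ n, t < m.real {ω | Y ω n ≤ Q n} ∧ m.real {ω | Y ω n ≤ Q n - 1} ≤ t) {x : Fn}
    (hx : t < m.real {ω | Prec (Y ω) x}) : Prec Q x := by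
  intro k
  have h := quantile_le hY hQ (v := fun n => x n - k) (lt_of_lt_of_le hx ?_)
  · filter_upwards [h] with n hn
    omega
  · apply measureReal_mono _ (measure_ne_top m _)
    intro ω hω
    have := hω k
    simp only [Set.mem_ofPred_eq]
    filter_upwards [this] with n hn
    omega

theorem prec_quantile (hY : ∀ n, Measurable (fun ω => Y ω n)) {t : ℝ} {Q : Fn}
    (hQ : ∀ n, t < m.real {ω | Y ω n ≤ Q n} ∧ m.real {ω | Y ω n ≤ Q n - 1} ≤ t) {x : Fn}
    (hx : m.real Set.univ - t < m.real {ω | Prec x (Y ω)}) : Prec x Q := by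
  intro k
  have h := quantile_ge hY hQ (v := fun n => x n + k) (lt_of_lt_of_le hx ?_)
  · exact h
  · apply measureReal_mono _ (measure_ne_top m _)
    intro ω hω
    exact hω k

/-- The kill lemma at a node. -/
theorem kill_node (σ : List Fn) (hm : m ≠ 0) (hY : ∀ n, Measurable (fun ω => Y ω n))
    (h1 : ∀ x ∈ X σ, ∀ᵐ ω ∂m, Prec (Y ω) x ∨ Prec x (Y ω))
    (h3 : ∀ x ∈ X σ, ∀ w ∈ W (Aset (x :: σ)), ∀ᵐ ω ∂m, Prec (Y ω) w ∨ Prec x (Y ω))
    (h4 : ∀ a ∈ Aset σ, ∀ᵐ ω ∂m, Prec (Y ω) (-a)) : False := by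
  set M := m.real Set.univ with hM
  have hM0 : 0 < M := by
    rw [hM]
    have : m Set.univ ≠ 0 := by
      simpa using hm
    exact ENNReal.toReal_pos this (measure_ne_top m _)
  set l : Fn → ℝ := fun x => m.real {ω | Prec (Y ω) x} with hl
  have hlr : ∀ x ∈ X σ, m.real {ω | Prec x (Y ω)} = M - l x := by
    intro x hx
    have hdisj : Disjoint {ω | Prec (Y ω) x} {ω | Prec x (Y ω)} := by
      rw [Set.disjoint_left]
      intro ω ha hb
      exact Prec.irrefl _ (Prec.trans ha hb)
    have h4 := measureReal_union (μ := m) hdisj (measurableSet_prec_left hY x)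
    have h5 : m.real ({ω | Prec (Y ω) x} ∪ {ω | Prec x (Y ω)}) = M := by
      rw [hM]
      apply measureReal_congr
      filter_upwards [h1 x hx] with ω hω
      apply propext
      constructor
      · intro _; exact trivial
      · intro _; exact hω
    linarith
  -- choose t
  obtain ⟨t, ht0, ht1, htl⟩ : ∃ t, 0 < t ∧ t < M ∧ ∀ x ∈ X σ, l x ≠ t := by
    by_contra hcon
    push Not at hcon
    have hex : ∀ n : ℕ, ∃ x ∈ X σ, l x = M / (n + 2) := by
      intro n
      apply hcon
      · positivity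
      · rw [div_lt_iff₀ (by positivity)]
        nlinarith
    choose x hx hlx using hex
    have hdesc : ∀ n, Prec (x (n + 1)) (x n) := by
      intro n
      have hlt : l (x (n + 1)) < l (x n) := by
        rw [hlx, hlx]
        apply div_lt_div_of_pos_left hM0 (by positivity)
        push_cast
        linarith
      rcases X_trich (hx (n + 1)) (hx n) with h | h | h
      · rw [h] at hlt
        exact absurd hlt (lt_irrefl _)
      · exact h
      · exfalso
        have : l (x n) ≤ l (x (n + 1)) := by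
          apply measureReal_mono _ (measure_ne_top m _)
          intro ω hω
          exact Prec.trans hω h
        linarith
    obtain ⟨y, hy, hymin⟩ := X_min (σ := σ) (S := Set.range x)
      (by rintro _ ⟨n, rfl⟩; exact hx n) (Set.range_nonempty _)
    obtain ⟨n, rfl⟩ := hy
    exact hymin _ ⟨n + 1, rfl⟩ (hdesc n)
  obtain ⟨Q, hQ⟩ := exists_quantile (m := m) hY ht0 ht1
  by_cases hS : ∃ x ∈ X σ, t < l x
  · obtain ⟨x, ⟨hx, hxt⟩, hxmin⟩ := X_min (σ := σ) (S := {x | x ∈ X σ ∧ t < l x})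
      (fun y hy => hy.1) (by obtain ⟨x, hx⟩ := hS; exact ⟨x, hx⟩)
    obtain ⟨w, hw, hw2⟩ := W_max (A := Aset (x :: σ)) (u := Q) (by
      intro a ha
      rw [mem_Aset_cons] at ha
      apply prec_quantile hY hQ
      rw [hlr a ha.1]
      have h1 : ¬ t < l a := fun h => hxmin a ⟨ha.1, h⟩ ha.2
      have h2 := htl a ha.1
      have h3 : l a < t := lt_of_le_of_ne (not_lt.1 h1) h2
      linarith)
    apply hw2
    apply quantile_prec hY hQ
    have h5 : M ≤ m.real {ω | Prec (Y ω) w} + m.real {ω | Prec x (Y ω)} := by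
      have h6 : m.real ({ω | Prec (Y ω) w} ∪ {ω | Prec x (Y ω)}) = M := by
        rw [hM]
        apply measureReal_congr
        filter_upwards [h3 x hx w hw] with ω hω
        apply propext
        constructor
        · intro _; exact trivial
        · intro _; exact hω
      rw [← h6]
      exact measureReal_union_le _ _
    rw [hlr x hx] at h5
    linarith
  · push Not at hS
    apply X_barrier (σ := σ) (u := Q)
    · intro x hx
      apply prec_quantile hY hQ
      rw [hlr x hx]
      have h2 : l x < t := lt_of_le_of_ne (hS x hx) (htl x hx)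
      linarith
    · intro a ha
      apply quantile_prec hY hQ
      have h6 : m.real {ω | Prec (Y ω) (-a)} = M := by
        rw [hM]
        apply measureReal_congr
        filter_upwards [h4 a ha] with ω hω
        apply propext
        constructor
        · intro _; exact trivial
        · intro _; exact hω
      rw [h6]
      exact ht1

end Pool.Agent.H.MP_906480_an
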