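import Pool.Agent.H.MP_906480_an.Defs

/-!
Nodes of the binary tree, and measures on the space of branches from additive functions.
-/

namespace Pool.Agent.H.MP_906480_an

open Filter Topology MeasureTheory

theorem node_lb (ω : ℕ → Bool) (j : ℕ) : 2 ^ j ≤ node ω j := by
  induction j with
  | zero => simp [node]
  | succ j ih =>
    simp only [node, pow_succ]
    split <;> omega

theorem node_ub (ω : ℕ → Bool) (j : ℕ) : node ω j < 2 ^ (j + 1) := by
  induction j with
  | zero => simp [node]
  | succ j ih =>
    rw [pow_succ]
    simp only [node]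
    split <;> omega

theorem node_succ_div (ω : ℕ → Bool) (j : ℕ) : node ω (j + 1) / 2 = node ω j := by
  simp only [node]
  split <;> omega

theorem node_div (ω : ℕ → Bool) (j d : ℕ) : node ω (j + d) / 2 ^ d = node ω j := by
  induction d with
  | zero => simp
  | succ d ih =>
    rw [← add_assoc, pow_succ', ← Nat.div_div_eq_div_mul, node_succ_div, ih]

theorem node_eq_iff {ω ω' : ℕ → Bool} {j : ℕ} :
    node ω j = node ω' j ↔ ∀ i < j, ω i = ω' i := by
  induction j with
  | zero => simp [node]
  | succ j ih =>
    constructor
    · intro h i hi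
      have h1 : node ω j = node ω' j := by
        rw [← node_succ_div ω j, ← node_succ_div ω' j, h]
      rcases Nat.lt_succ_iff_lt_or_eq.1 hi with h2 | h2
      · exact ih.1 h1 i h2
      · subst h2
        simp only [node, h1] at h
        cases h3 : ω i <;> cases h4 : ω' i <;> simp_all
    · intro h
      have h1 := ih.2 (fun i hi => h i (by omega))
      simp only [node, h1, h j (by omega)]

theorem node_inj_level {ω ω' : ℕ → Bool} {j j' : ℕ} (h : node ω j = node ω' j') : j = j' := by
  have h1 := node_lb ω j
  have h2 := node_ub ω j
  have h3 := node_lb ω' j'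
  have h4 := node_ub ω' j'
  rw [h] at h1 h2
  have h5 : 2 ^ j < 2 ^ (j' + 1) := lt_of_le_of_lt h1 h4
  have h6 : 2 ^ j' < 2 ^ (j + 1) := lt_of_le_of_lt h3 h2
  have h7 := (Nat.pow_lt_pow_iff_right (by norm_num)).1 h5
  have h8 := (Nat.pow_lt_pow_iff_right (by norm_num)).1 h6
  omega

theorem continuous_node (j : ℕ) : Continuous (fun ω : ℕ → Bool => node ω j) := by
  induction j with
  | zero => exact continuous_const
  | succ j ih =>
    simp only [node]
    have h2 : Continuous (fun ω : ℕ → Bool => (if ω j then 1 else 0 : ℕ)) :=
      (continuous_of_discreteTopology (f := fun b : Bool => (if b then 1 else 0 : ℕ))).comp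
        (continuous_apply j)
    exact (continuous_const.mul ih).add h2

theorem measurable_node (j : ℕ) : Measurable (fun ω : ℕ → Bool => node ω j) :=
  (continuous_node j).measurable

theorem isClopen_node (j : ℕ) (S : Set ℕ) : IsClopen {ω : ℕ → Bool | node ω j ∈ S} :=
  (isClopen_discrete S).preimage (continuous_node j)

/-- Two finite measures agreeing on cylinders are equal. -/
theorem measure_eq_of_node {p q : Measure (ℕ → Bool)} [IsFiniteMeasure p] [IsFiniteMeasure q]
    (h : ∀ j k, p {ω | node ω j = k} = q {ω | node ω j = k}) : p = q := by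
  have hsets : ∀ j (K : Set ℕ), p {ω | node ω j ∈ K} = q {ω | node ω j ∈ K} := by
    intro j K
    have h1 : {ω : ℕ → Bool | node ω j ∈ K} = ⋃ k ∈ K, {ω | node ω j = k} := by
      ext ω; simp
    rw [h1, measure_biUnion (Set.to_countable K), measure_biUnion (Set.to_countable K)]
    · exact tsum_congr fun k => h j k
    · intro a _ b _ hab
      rw [Function.onFun, Set.disjoint_left]
      intro ω h1 h2
      exact hab (h1.symm.trans h2)
    · intro k _
      exact (isClopen_node j {k}).isOpen.measurableSet
    · intro a _ b _ hab
      rw [Function.onFun, Set.disjoint_left]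
      intro ω h1 h2
      exact hab (h1.symm.trans h2)
    · intro k _
      exact (isClopen_node j {k}).isOpen.measurableSet
  refine ext_of_generate_finite {A | ∃ j, ∃ K : Set ℕ, A = {ω : ℕ → Bool | node ω j ∈ K}} ?_ ?_ ?_ ?_
  · apply le_antisymm
    · refine iSup_le fun j => ?_
      rintro _ ⟨S, _, rfl⟩
      apply MeasurableSpace.measurableSet_generateFrom
      refine ⟨j + 1, {k | (decide (k % 2 = 1)) ∈ S}, ?_⟩
      ext ω
      simp only [Set.mem_preimage, Set.mem_ofPred_eq, node]
      cases h : ω j
      · have : (2 * node ω j + if false = true then 1 else 0) % 2 = 0 := by simp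
        simp
      · have : (2 * node ω j + 1) % 2 = 1 := by omega
        simp [this]
    · apply MeasurableSpace.generateFrom_le
      rintro _ ⟨j, K, rfl⟩
      exact (isClopen_node j K).isOpen.measurableSet
  · rintro _ ⟨j, K, rfl⟩ _ ⟨j', K', rfl⟩ _
    rcases le_total j j' with hj | hj
    · obtain ⟨d, rfl⟩ := Nat.exists_eq_add_of_le hj
      refine ⟨j + d, {k | k / 2 ^ d ∈ K} ∩ K', ?_⟩
      ext ω
      simp [node_div]
    · obtain ⟨d, rfl⟩ := Nat.exists_eq_add_of_le hj
      refine ⟨j' + d, K ∩ {k | k / 2 ^ d ∈ K'}, ?_⟩
      ext ω
      simp [node_div]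
  · rintro _ ⟨j, K, rfl⟩
    exact hsets j K
  · have := hsets 0 Set.univ
    simpa using this

section Construct

variable (c : ℕ → ℝ)

/-- State of the quantile construction: left end point and current node. -/
noncomputable def st (u : ℝ) : ℕ → ℝ × ℕ
  | 0 => (0, 1)
  | j + 1 =>
    if u < (st u j).1 + c (2 * (st u j).2) then ((st u j).1, 2 * (st u j).2)
    else ((st u j).1 + c (2 * (st u j).2), 2 * (st u j).2 + 1)

open Classical in
/-- The branch attached to `u`. -/
noncomputable def br (u : ℝ) : ℕ → Bool := fun j =>
  !decide (u < (st c u j).1 + c (2 * (st c u j).2))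

theorem node_br (u : ℝ) (j : ℕ) : node (br c u) j = (st c u j).2 := by
  induction j with
  | zero => rfl
  | succ j ih =>
    simp only [node, st, ih, br]
    by_cases h : u < (st c u j).1 + c (2 * (st c u j).2)
    · simp [h]
    · simp [h]

theorem measurable_st (j : ℕ) : Measurable (fun u => st c u j) := by
  induction j with
  | zero => exact measurable_const
  | succ j ih =>
    simp only [st]
    have h1 : Measurable (fun u => (st c u j).1) := ih.fst
    have h2 : Measurable (fun u => (st c u j).2) := ih.snd
    have h3 : Measurable (fun u => c (2 * (st c u j).2)) :=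
      (measurable_from_top (f := fun k : ℕ => c (2 * k))).comp h2
    refine Measurable.ite (measurableSet_lt measurable_id (h1.add h3)) ?_ ?_
    · exact h1.prodMk ((measurable_from_top (f := fun k : ℕ => 2 * k)).comp h2)
    · exact (h1.add h3).prodMk ((measurable_from_top (f := fun k : ℕ => 2 * k + 1)).comp h2)

theorem measurable_br : Measurable (br c) := by
  rw [measurable_pi_iff]
  intro j
  have h1 : Measurable (fun u => (st c u j).1) := (measurable_st c j).fst
  have h2 : Measurable (fun u => (st c u j).2) := (measurable_st c j).snd
  have h3 : Measurable (fun u => c (2 * (st c u j).2)) :=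
    (measurable_from_top (f := fun k : ℕ => c (2 * k))).comp h2
  have h4 : MeasurableSet {u | u < (st c u j).1 + c (2 * (st c u j).2)} :=
    measurableSet_lt measurable_id (h1.add h3)
  apply measurable_to_bool
  have : (fun u => br c u j) ⁻¹' {true} = {u | u < (st c u j).1 + c (2 * (st c u j).2)}ᶜ := by
    ext u
    simp [br]
  rw [this]
  exact h4.compl

theorem exists_measure (hc0 : ∀ k, 1 ≤ k → 0 ≤ c k)
    (hadd : ∀ k, 1 ≤ k → c k = c (2 * k) + c (2 * k + 1)) :
    ∃ μ : Measure (ℕ → Bool), IsFiniteMeasure μ ∧
      ∀ j k, 2 ^ j ≤ k → k < 2 ^ (j + 1) → μ {ω | node ω j = k} = ENNReal.ofReal (c k) := by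
  have key : ∀ j k, 2 ^ j ≤ k → k < 2 ^ (j + 1) → ∃ a : ℝ,
      (∀ u, (u ∈ Set.Ico 0 (c 1) ∧ (st c u j).2 = k) ↔ u ∈ Set.Ico a (a + c k)) ∧
      (∀ u, u ∈ Set.Ico 0 (c 1) → (st c u j).2 = k → (st c u j).1 = a) := by
    intro j
    induction j with
    | zero =>
      intro k h1 h2
      have hk : k = 1 := by omega
      subst hk
      refine ⟨0, fun u => ?_, fun u _ _ => rfl⟩
      simp [st]
    | succ j ih =>
      intro k h1 h2
      obtain ⟨a, ha1, ha2⟩ := ih (k / 2) (by rw [pow_succ] at h1; omega)
        (by rw [pow_succ (n := j + 1)] at h2; omega)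
      have hpos : 1 ≤ k / 2 := by
        have : 1 ≤ 2 ^ j := Nat.one_le_two_pow
        rw [pow_succ] at h1
        omega
      have hadd' := hadd (k / 2) hpos
      have hn1 := hc0 (2 * (k / 2)) (by omega)
      have hn2 := hc0 (2 * (k / 2) + 1) (by omega)
      rcases Nat.even_or_odd' k with ⟨r, hr | hr⟩
      · have hkr : k / 2 = r := by omega
        rw [hkr] at ha1 ha2 hadd' hn1 hn2
        rw [hr]
        refine ⟨a, fun u => ?_, fun u hu hst => ?_⟩
        · constructor
          · rintro ⟨hu, hst⟩
            simp only [st] at hst
            by_cases hlt : u < (st c u j).1 + c (2 * (st c u j).2)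
            · rw [if_pos hlt] at hst
              have h3 : (st c u j).2 = r := by simpa using hst
              have h4 := (ha1 u).1 ⟨hu, h3⟩
              have h5 := ha2 u hu h3
              rw [h3, h5] at hlt
              exact ⟨h4.1, hlt⟩
            · rw [if_neg hlt] at hst
              exfalso
              simp only at hst
              omega
          · rintro ⟨h3, h4⟩
            have h5 := (ha1 u).2 ⟨h3, by linarith⟩
            have h6 := ha2 u h5.1 h5.2
            refine ⟨h5.1, ?_⟩
            simp only [st]
            rw [if_pos (by rw [h5.2, h6]; exact h4)]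
            simp [h5.2]
        · simp only [st] at hst ⊢
          by_cases hlt : u < (st c u j).1 + c (2 * (st c u j).2)
          · rw [if_pos hlt] at hst ⊢
            have h3 : (st c u j).2 = r := by simpa using hst
            exact ha2 u hu h3
          · rw [if_neg hlt] at hst
            exfalso
            simp only at hst
            omega
      · have hkr : k / 2 = r := by omega
        rw [hkr] at ha1 ha2 hadd' hn1 hn2
        rw [hr]
        refine ⟨a + c (2 * r), fun u => ?_, fun u hu hst => ?_⟩
        · constructor
          · rintro ⟨hu, hst⟩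
            simp only [st] at hst
            by_cases hlt : u < (st c u j).1 + c (2 * (st c u j).2)
            · rw [if_pos hlt] at hst
              exfalso
              simp only at hst
              omega
            · rw [if_neg hlt] at hst
              have h3 : (st c u j).2 = r := by simpa using hst
              have h4 := (ha1 u).1 ⟨hu, h3⟩
              have h5 := ha2 u hu h3
              rw [h3, h5] at hlt
              push Not at hlt
              exact ⟨hlt, by have := h4.2; linarith⟩
          · rintro ⟨h3, h4⟩
            have h5 := (ha1 u).2 ⟨by linarith, by linarith⟩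
            have h6 := ha2 u h5.1 h5.2
            refine ⟨h5.1, ?_⟩
            simp only [st]
            rw [if_neg (by rw [h5.2, h6]; push Not; exact h3)]
            simp [h5.2]
        · simp only [st] at hst ⊢
          by_cases hlt : u < (st c u j).1 + c (2 * (st c u j).2)
          · rw [if_pos hlt] at hst
            exfalso
            simp only at hst
            omega
          · rw [if_neg hlt] at hst ⊢
            have h3 : (st c u j).2 = r := by simpa using hst
            simp only [h3]
            rw [ha2 u hu h3]
  refine ⟨(volume.restrict (Set.Ico 0 (c 1))).map (br c), ?_, ?_⟩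
  · have : IsFiniteMeasure (volume.restrict (Set.Ico 0 (c 1))) := by
      constructor
      rw [Measure.restrict_apply_univ, Real.volume_Ico]
      exact ENNReal.ofReal_lt_top
    infer_instance
  · intro j k h1 h2
    have hms : MeasurableSet {ω : ℕ → Bool | node ω j = k} :=
      (isClopen_node j {k}).isOpen.measurableSet
    rw [Measure.map_apply (measurable_br c) hms]
    have hset : br c ⁻¹' {ω | node ω j = k} = {u | (st c u j).2 = k} := by
      ext u
      simp [node_br]
    rw [hset, Measure.restrict_apply]
    · obtain ⟨a, ha1, -⟩ := key j k h1 h2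
      have : {u | (st c u j).2 = k} ∩ Set.Ico 0 (c 1) = Set.Ico a (a + c k) := by
        ext u
        rw [← ha1 u]
        exact ⟨fun h => ⟨h.2, h.1⟩, fun h => ⟨h.2, h.1⟩⟩
      rw [this, Real.volume_Ico]
      congr 1
      ring
    · exact (measurable_st c j).snd (measurableSet_singleton k)

end Construct

end Pool.Agent.H.MP_906480_an
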