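import Pool.Agent.H.MP_906480_an.Nodes

/-!
Paths in the tree and telescoping sums.
-/

namespace Pool.Agent.H.MP_906480_an

open Filter Topology

/-- A path in the tree starting at the root. -/
structure IsPath (A : Set ℕ) : Prop where
  pos : ∀ k ∈ A, 1 ≤ k
  half : ∀ k ∈ A, 2 ≤ k → k / 2 ∈ A
  chain : ∀ k ∈ A, ∀ k' ∈ A, k < k' → k ≤ k' / 2

open Classical in
/-- The last element of the path which is at most `n` (or `0`). -/
noncomputable def lst (A : Set ℕ) : ℕ → ℕ
  | 0 => 0
  | n + 1 => if n + 1 ∈ A then n + 1 else lst A n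

theorem lst_le (A : Set ℕ) (n : ℕ) : lst A n ≤ n := by
  induction n with
  | zero => simp [lst]
  | succ n ih =>
    simp only [lst]
    split <;> omega

theorem lst_mem (A : Set ℕ) (n : ℕ) : lst A n = 0 ∨ lst A n ∈ A := by
  induction n with
  | zero => exact Or.inl rfl
  | succ n ih =>
    simp only [lst]
    split
    · right; assumption
    · exact ih

theorem le_lst {A : Set ℕ} {k n : ℕ} (hk : k ∈ A) (h : k ≤ n) : k ≤ lst A n := by
  induction n with
  | zero => omega
  | succ n ih =>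
    simp only [lst]
    split
    · exact h
    · rename_i hn
      apply ih
      rcases Nat.lt_or_eq_of_le h with h1 | h1
      · omega
      · subst h1; exact absurd hk hn

theorem IsPath.lst_eq {A : Set ℕ} (hA : IsPath A) {n : ℕ} (h : n + 1 ∈ A) :
    lst A n = (n + 1) / 2 := by
  rcases Nat.eq_zero_or_pos n with rfl | hn
  · simp [lst]
  · apply le_antisymm
    · rcases lst_mem A n with h1 | h1
      · omega
      · exact hA.chain _ h1 _ h (by have := lst_le A n; omega)
    · exact le_lst (hA.half _ h (by omega)) (by omega)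

/-- The path to the node `s`. -/
def anc (s : ℕ) : Set ℕ := {k | 1 ≤ k ∧ ∃ d, s / 2 ^ d = k}

theorem isPath_anc (s : ℕ) : IsPath (anc s) := by
  refine ⟨fun k hk => hk.1, ?_, ?_⟩
  · rintro k ⟨h1, d, rfl⟩ h2
    exact ⟨by omega, d + 1, by rw [pow_succ, ← Nat.div_div_eq_div_mul]⟩
  · rintro k ⟨h1, d, rfl⟩ k' ⟨h2, d', rfl⟩ h3
    have h4 : d' < d := by
      by_contra h
      push Not at h
      have : s / 2 ^ d' ≤ s / 2 ^ d :=
        Nat.div_le_div_left (Nat.pow_le_pow_right (by norm_num) h) (by positivity)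
      omega
    calc s / 2 ^ d ≤ s / 2 ^ (d' + 1) :=
          Nat.div_le_div_left (Nat.pow_le_pow_right (by norm_num) h4) (by positivity)
      _ = s / 2 ^ d' / 2 := by rw [pow_succ, ← Nat.div_div_eq_div_mul]

theorem lst_anc {s n : ℕ} (hs : 1 ≤ s) (h : s ≤ n) : lst (anc s) n = s := by
  apply le_antisymm
  · rcases lst_mem (anc s) n with h1 | ⟨_, d, h1⟩
    · omega
    · rw [← h1]; exact Nat.div_le_self _ _
  · exact le_lst ⟨hs, 0, by simp⟩ h

theorem node_mono (ω : ℕ → Bool) : StrictMono (node ω) := by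
  apply strictMono_nat_of_lt_succ
  intro j
  have h1 := node_lb ω j
  have h2 : 0 < 2 ^ j := by positivity
  simp only [node]
  split <;> omega

theorem isPath_branch (ω : ℕ → Bool) : IsPath (Set.range (node ω)) := by
  refine ⟨?_, ?_, ?_⟩
  · rintro _ ⟨j, rfl⟩
    exact le_trans Nat.one_le_two_pow (node_lb ω j)
  · rintro _ ⟨j, rfl⟩ h
    cases j with
    | zero => simp [node] at h
    | succ j => exact ⟨j, (node_succ_div ω j).symm⟩
  · rintro _ ⟨j, rfl⟩ _ ⟨j', rfl⟩ h
    have h1 : j < j' := (node_mono ω).lt_iff_lt.1 h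
    cases j' with
    | zero => omega
    | succ j' =>
      rw [node_succ_div]
      exact (node_mono ω).monotone (by omega)

theorem lst_branch_tendsto (ω : ℕ → Bool) :
    Tendsto (lst (Set.range (node ω))) atTop atTop := by
  rw [tendsto_atTop]
  intro a
  filter_upwards [eventually_ge_atTop (node ω a)] with n hn
  exact le_trans (node_mono ω).le_apply (le_lst ⟨a, rfl⟩ hn)

theorem lst_branch_mem (ω : ℕ → Bool) {n : ℕ} (hn : 1 ≤ n) :
    lst (Set.range (node ω)) n ∈ Set.range (node ω) := by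
  rcases lst_mem (Set.range (node ω)) n with h | h
  · have := le_lst (A := Set.range (node ω)) (k := 1) ⟨0, rfl⟩ hn
    omega
  · exact h

variable {𝕜 : Type*} [RCLike 𝕜]

/-- Coefficients of a family of weighted paths. -/
noncomputable def coef {ι : Type*} (Γ : ι → 𝕜) (A : ι → Set ℕ) (i : ℕ) : 𝕜 :=
  ∑' j, (A j).indicator (fun _ => Γ j) (i + 1)

theorem sum_coef {ι : Type*} {Γ : ι → 𝕜} (hΓ : Summable (fun j => ‖Γ j‖)) {A : ι → Set ℕ}
    (hA : ∀ j, IsPath (A j)) (x : ℕ → 𝕜) {C : ℝ} (hC : ∀ k, ‖x k‖ ≤ C) (n : ℕ) :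
    ∑ i ∈ Finset.range n, coef Γ A i * (x (i + 1) - x ((i + 1) / 2)) =
      ∑' j, Γ j * (x (lst (A j) n) - x 0) := by
  induction n with
  | zero => simp [lst]
  | succ n ih =>
    rw [Finset.sum_range_succ, ih]
    have hs : ∀ k : ι → ℕ, ∀ l : ι → ℕ, Summable (fun j => Γ j * (x (k j) - x (l j))) := by
      intro k l
      refine Summable.of_norm_bounded (g := fun j => ‖Γ j‖ * (2 * C)) (hΓ.mul_right _) ?_
      intro j
      rw [norm_mul]
      refine mul_le_mul_of_nonneg_left ?_ (norm_nonneg _)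
      refine le_trans (norm_sub_le _ _) ?_
      have := hC (k j)
      have := hC (l j)
      linarith
    have hs2 : Summable (fun j => (A j).indicator (fun _ => Γ j) (n + 1)) := by
      refine Summable.of_norm_bounded (g := fun j => ‖Γ j‖) hΓ ?_
      intro j
      exact norm_indicator_le_norm_self (fun _ => Γ j) (n + 1)
    unfold coef
    rw [← tsum_mul_right, ← (hs _ _).tsum_add (hs2.mul_right _)]
    refine tsum_congr fun j => ?_
    by_cases h : n + 1 ∈ A j
    · rw [Set.indicator_of_mem h, (hA j).lst_eq h]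
      simp only [lst, if_pos h]
      ring
    · rw [Set.indicator_of_notMem h]
      simp only [lst, if_neg h]
      ring

theorem norm_sum_coef_le {ι : Type*} {Γ : ι → 𝕜} (hΓ : Summable (fun j => ‖Γ j‖))
    {A : ι → Set ℕ} (hA : ∀ j, IsPath (A j)) (x : ℕ → 𝕜) {C : ℝ} (hC : ∀ k, ‖x k‖ ≤ C)
    (n : ℕ) :
    ‖∑ i ∈ Finset.range n, coef Γ A i * (x (i + 1) - x ((i + 1) / 2))‖ ≤
      (∑' j, ‖Γ j‖) * (2 * C) := by
  rw [sum_coef hΓ hA x hC, ← tsum_mul_right]
  refine tsum_of_norm_bounded (hΓ.mul_right (2 * C)).hasSum ?_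
  intro j
  rw [norm_mul]
  refine mul_le_mul_of_nonneg_left ?_ (norm_nonneg _)
  refine le_trans (norm_sub_le _ _) ?_
  have := hC (lst (A j) n)
  have := hC 0
  linarith

theorem tendsto_sum_coef {ι : Type*} {Γ : ι → 𝕜} (hΓ : Summable (fun j => ‖Γ j‖))
    {A : ι → Set ℕ} (hA : ∀ j, IsPath (A j)) (x : ℕ → 𝕜) {C : ℝ} (hC : ∀ k, ‖x k‖ ≤ C)
    (hx0 : x 0 = 0) (L : ι → 𝕜) (hL : ∀ j, Tendsto (fun n => x (lst (A j) n)) atTop (𝓝 (L j))) :
    Tendsto (fun n => ∑ i ∈ Finset.range n, coef Γ A i * (x (i + 1) - x ((i + 1) / 2)))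
      atTop (𝓝 (∑' j, Γ j * L j)) := by
  simp only [sum_coef hΓ hA x hC, hx0, sub_zero]
  refine tendsto_tsum_of_dominated_convergence (bound := fun j => ‖Γ j‖ * C)
    (hΓ.mul_right C) ?_ ?_
  · intro j
    exact (hL j).const_mul _
  · refine Eventually.of_forall fun n j => ?_
    rw [norm_mul]
    exact mul_le_mul_of_nonneg_left (hC _) (norm_nonneg _)

end Pool.Agent.H.MP_906480_an
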