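import Pool.Agent.H.MP_906480_an.Nodes

/-!
Additive functions of bounded variation on the tree are differences of two mutually
singular finite measures.
-/

namespace Pool.Agent.H.MP_906480_an

open Filter Topology MeasureTheory

/-- The variation of `c` below `k` at depth `j`. -/
noncomputable def pv (c : ℕ → ℝ) (k j : ℕ) : ℝ :=
  ∑ i ∈ Finset.range (2 ^ j), |c (k * 2 ^ j + i)|

theorem pv_zero (c : ℕ → ℝ) (k : ℕ) : pv c k 0 = |c k| := by simp [pv]

theorem pv_succ (c : ℕ → ℝ) (k j : ℕ) :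
    pv c k (j + 1) = pv c (2 * k) j + pv c (2 * k + 1) j := by
  unfold pv
  rw [pow_succ, mul_two, Finset.sum_range_add]
  congr 1
  · refine Finset.sum_congr rfl fun i _ => ?_
    congr 2
    ring
  · refine Finset.sum_congr rfl fun i _ => ?_
    congr 2
    ring

theorem pv_mono (c : ℕ → ℝ) (hadd : ∀ k, 1 ≤ k → c k = c (2 * k) + c (2 * k + 1)) (k : ℕ)
    (hk : 1 ≤ k) (j : ℕ) : pv c k j ≤ pv c k (j + 1) := by
  induction j generalizing k with
  | zero =>
    rw [pv_succ, pv_zero, pv_zero, pv_zero, hadd k hk]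
    exact abs_add_le _ _
  | succ j ih =>
    rw [pv_succ c k (j + 1), pv_succ c k j]
    exact add_le_add (ih (2 * k) (by omega)) (ih (2 * k + 1) (by omega))

theorem exists_level {k : ℕ} (hk : 1 ≤ k) : ∃ l, 2 ^ l ≤ k ∧ k < 2 ^ (l + 1) :=
  ⟨Nat.log 2 k, Nat.pow_log_le_self 2 (by omega), Nat.lt_pow_succ_log_self (by norm_num) k⟩

theorem pv_le (c : ℕ → ℝ) {M : ℝ}
    (hM : ∀ j, ∑ k ∈ Finset.Ico (2 ^ j) (2 ^ (j + 1)), |c k| ≤ M) (k : ℕ) (hk : 1 ≤ k) (j : ℕ) :
    pv c k j ≤ M := by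
  obtain ⟨l, h1, h2⟩ := exists_level hk
  refine le_trans ?_ (hM (l + j))
  unfold pv
  have h3 : ∑ i ∈ Finset.range (2 ^ j), |c (k * 2 ^ j + i)| =
      ∑ i ∈ Finset.Ico (k * 2 ^ j) (k * 2 ^ j + 2 ^ j), |c i| := by
    rw [Finset.sum_Ico_eq_sum_range, Nat.add_sub_cancel_left]
  rw [h3]
  apply Finset.sum_le_sum_of_subset_of_nonneg
  · apply Finset.Ico_subset_Ico
    · rw [pow_add]
      exact Nat.mul_le_mul_right _ h1
    · have : k + 1 ≤ 2 ^ (l + 1) := h2
      calc k * 2 ^ j + 2 ^ j = (k + 1) * 2 ^ j := by ring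
        _ ≤ 2 ^ (l + 1) * 2 ^ j := Nat.mul_le_mul_right _ this
        _ = 2 ^ (l + j + 1) := by ring
  · intro i _ _
    exact abs_nonneg _

theorem exists_pq (c : ℕ → ℝ) (hadd : ∀ k, 1 ≤ k → c k = c (2 * k) + c (2 * k + 1))
    (hbv : ∃ M, ∀ j, ∑ k ∈ Finset.Ico (2 ^ j) (2 ^ (j + 1)), |c k| ≤ M) :
    ∃ p q : Measure (ℕ → Bool), IsFiniteMeasure p ∧ IsFiniteMeasure q ∧ p ⟂ₘ q ∧
      ∀ j k, 2 ^ j ≤ k → k < 2 ^ (j + 1) →
        p.real {ω | node ω j = k} - q.real {ω | node ω j = k} = c k := by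
  obtain ⟨M, hM⟩ := hbv
  have hlim : ∀ k, 1 ≤ k → ∃ v, Tendsto (fun j => pv c k j) atTop (𝓝 v) := by
    intro k hk
    refine ⟨_, tendsto_atTop_ciSup (monotone_nat_of_le_succ (pv_mono c hadd k hk)) ?_⟩
    exact ⟨M, by rintro _ ⟨j, rfl⟩; exact pv_le c hM k hk j⟩
  choose! v hv using hlim
  have hvadd : ∀ k, 1 ≤ k → v k = v (2 * k) + v (2 * k + 1) := by
    intro k hk
    have h1 := (tendsto_add_atTop_iff_nat 1).2 (hv k hk)
    have h2 := (hv (2 * k) (by omega)).add (hv (2 * k + 1) (by omega))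
    refine tendsto_nhds_unique h1 ?_
    refine h2.congr fun j => ?_
    rw [pv_succ]
  have hcv : ∀ k, 1 ≤ k → |c k| ≤ v k := by
    intro k hk
    have h1 : Monotone (fun j => pv c k j) := monotone_nat_of_le_succ (pv_mono c hadd k hk)
    have h2 := h1.ge_of_tendsto (hv k hk) 0
    simpa [pv_zero] using h2
  obtain ⟨μ1, hf1, hμ1⟩ := exists_measure v
    (fun k hk => le_trans (abs_nonneg _) (hcv k hk)) hvadd
  obtain ⟨μ2, hf2, hμ2⟩ := exists_measure (fun k => v k - c k)
    (fun k hk => by have := le_abs_self (c k); have := hcv k hk; linarith)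
    (fun k hk => by have := hvadd k hk; have := hadd k hk; linarith)
  let s : SignedMeasure (ℕ → Bool) := μ1.toSignedMeasure - μ2.toSignedMeasure
  let J := s.toJordanDecomposition
  refine ⟨J.posPart, J.negPart, inferInstance, inferInstance, J.mutuallySingular, ?_⟩
  intro j k h1 h2
  have hms : MeasurableSet {ω : ℕ → Bool | node ω j = k} :=
    (isClopen_node j {k}).isOpen.measurableSet
  have hJ : J.toSignedMeasure = s := s.toSignedMeasure_toJordanDecomposition
  have h3 : J.toSignedMeasure {ω : ℕ → Bool | node ω j = k} =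
      J.posPart.real {ω | node ω j = k} - J.negPart.real {ω | node ω j = k} := by
    unfold JordanDecomposition.toSignedMeasure
    rw [sub_apply, Measure.toSignedMeasure_apply_measurable hms,
      Measure.toSignedMeasure_apply_measurable hms]
  rw [← h3, hJ]
  show (μ1.toSignedMeasure - μ2.toSignedMeasure) _ = _
  rw [sub_apply, Measure.toSignedMeasure_apply_measurable hms,
      Measure.toSignedMeasure_apply_measurable hms]
  have hk : 1 ≤ k := le_trans Nat.one_le_two_pow h1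
  have hcv' := hcv k hk
  have h4 := le_abs_self (c k)
  have h5 := abs_nonneg (c k)
  rw [Measure.real, Measure.real, hμ1 j k h1 h2, hμ2 j k h1 h2,
    ENNReal.toReal_ofReal (by linarith), ENNReal.toReal_ofReal (by linarith)]
  ring

end Pool.Agent.H.MP_906480_an
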