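import Pool.Agent.H.MP_906480_an.Paths

/-!
The Banach space generated by the coordinate vectors and the indicators of an almost
disjoint family, and the weak* basis of its dual.
-/

namespace Pool.Agent.H.MP_906480_an

open Filter Topology BoundedContinuousFunction

section Bases

variable {𝕜 : Type*} [RCLike 𝕜] {E : Type*} [NormedAddCommGroup E] [NormedSpace 𝕜 E]

/-- `x` is a basis of `E`: every vector has a unique norm convergent expansion. -/
def IsBasis (𝕜 : Type*) [RCLike 𝕜] {E : Type*} [NormedAddCommGroup E] [NormedSpace 𝕜 E]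
    (x : ℕ → E) : Prop :=
  ∀ v : E, ∃! a : ℕ → 𝕜,
    Tendsto (fun n => ∑ i ∈ Finset.range n, a i • x i) atTop (𝓝 v)

/-- `f` is a weak* basis of the dual of `E`: every functional has a unique expansion which
converges pointwise. -/
def IsWeakStarBasis (f : ℕ → StrongDual 𝕜 E) : Prop :=
  ∀ φ : StrongDual 𝕜 E, ∃! a : ℕ → 𝕜,
    ∀ x : E, Tendsto (fun n => ∑ i ∈ Finset.range n, a i * f i x) atTop (𝓝 (φ x))

theorem IsBasis.separable {x : ℕ → E} (hx : IsBasis 𝕜 x) :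
    TopologicalSpace.SeparableSpace E := by
  have h1 : TopologicalSpace.IsSeparable (Submodule.span 𝕜 (Set.range x) : Set E) :=
    ((Set.countable_range x).isSeparable).span
  have h2 : (Set.univ : Set E) ⊆ closure (Submodule.span 𝕜 (Set.range x) : Set E) := by
    intro v _
    obtain ⟨a, ha, -⟩ := hx v
    refine mem_closure_of_tendsto ha (Eventually.of_forall fun n => ?_)
    exact Submodule.sum_mem _ fun i _ =>
      Submodule.smul_mem _ _ (Submodule.subset_span ⟨i, rfl⟩)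
  have h3 := h1.closure.mono h2
  exact TopologicalSpace.isSeparable_univ_iff.1 h3

end Bases

section Gen

variable {𝕜 : Type*} [RCLike 𝕜]

theorem tendsto_of_closure {F : Type*} [NormedAddCommGroup F] [NormedSpace 𝕜 F]
    (R : ℕ → F →ₗ[𝕜] 𝕜) (K : ℝ) (hK : ∀ n y, ‖R n y‖ ≤ K * ‖y‖) (G : Set F)
    (hG : ∀ y ∈ G, Tendsto (fun n => R n y) atTop (𝓝 0)) :
    ∀ y ∈ (Submodule.span 𝕜 G).topologicalClosure, Tendsto (fun n => R n y) atTop (𝓝 0) := by
  have h1 : ∀ y ∈ Submodule.span 𝕜 G, Tendsto (fun n => R n y) atTop (𝓝 0) := by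
    intro y hy
    induction hy using Submodule.span_induction with
    | mem y hy => exact hG y hy
    | zero => simp
    | add y z _ _ hy hz => simpa using hy.add hz
    | smul a y _ hy => simpa using hy.const_mul a
  have hK' : ∀ n y, ‖R n y‖ ≤ (|K| + 1) * ‖y‖ := by
    intro n y
    refine (hK n y).trans (mul_le_mul_of_nonneg_right ?_ (norm_nonneg _))
    have := le_abs_self K
    linarith
  have hKp : 0 < |K| + 1 := by have := abs_nonneg K; linarith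
  intro y hy
  rw [Metric.tendsto_atTop]
  intro ε hε
  have hy' : y ∈ closure (Submodule.span 𝕜 G : Set F) := hy
  obtain ⟨z, hz, hyz⟩ := Metric.mem_closure_iff.1 hy' (ε / 2 / (|K| + 1)) (by positivity)
  obtain ⟨N, hN⟩ := Metric.tendsto_atTop.1 (h1 z hz) (ε / 2) (by positivity)
  refine ⟨N, fun n hn => ?_⟩
  have h2 := hN n hn
  rw [dist_zero_right] at h2 ⊢
  have h3 : R n y = R n (y - z) + R n z := by rw [map_sub]; ring
  have h4 : ‖R n (y - z)‖ ≤ ε / 2 := by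
    refine (hK' n _).trans ?_
    rw [dist_eq_norm] at hyz
    calc (|K| + 1) * ‖y - z‖ ≤ (|K| + 1) * (ε / 2 / (|K| + 1)) := by gcongr
      _ = ε / 2 := by field_simp
  calc ‖R n y‖ ≤ ‖R n (y - z)‖ + ‖R n z‖ := by rw [h3]; exact norm_add_le _ _
    _ < ε := by linarith

variable (𝕜) in
/-- The indicator of a set of integers. -/
noncomputable def ind (S : Set ℕ) : ℕ →ᵇ 𝕜 :=
  ofNormedAddCommGroupDiscrete (S.indicator fun _ => (1 : 𝕜)) 1 (by
    intro k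
    refine (norm_indicator_le_norm_self _ _).trans ?_
    simp)

theorem ind_apply (S : Set ℕ) (k : ℕ) : ind 𝕜 S k = S.indicator (fun _ => (1 : 𝕜)) k := rfl

theorem ind_apply_mem {S : Set ℕ} {k : ℕ} (h : k ∈ S) : ind 𝕜 S k = 1 := by
  rw [ind_apply, Set.indicator_of_mem h]

theorem ind_apply_notMem {S : Set ℕ} {k : ℕ} (h : k ∉ S) : ind 𝕜 S k = 0 := by
  rw [ind_apply, Set.indicator_of_notMem h]

variable (𝕜) in
/-- The generators. -/
def gens (P : Set (ℕ → Bool)) (b : (ℕ → Bool) → Set ℕ) : Set (ℕ →ᵇ 𝕜) :=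
  {y | ∃ k, 1 ≤ k ∧ y = ind 𝕜 {k}} ∪ {y | ∃ p ∈ P, y = ind 𝕜 (b p)}

variable (𝕜) in
/-- The space. -/
noncomputable def Sp (P : Set (ℕ → Bool)) (b : (ℕ → Bool) → Set ℕ) : Submodule 𝕜 (ℕ →ᵇ 𝕜) :=
  (Submodule.span 𝕜 (gens 𝕜 P b)).topologicalClosure

instance (P : Set (ℕ → Bool)) (b : (ℕ → Bool) → Set ℕ) : CompleteSpace (Sp 𝕜 P b) :=
  Submodule.topologicalClosure.completeSpace _

theorem ind_single_mem (P : Set (ℕ → Bool)) (b : (ℕ → Bool) → Set ℕ) {k : ℕ} (hk : 1 ≤ k) :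
    ind 𝕜 {k} ∈ Sp 𝕜 P b :=
  Submodule.le_topologicalClosure _ (Submodule.subset_span (Or.inl ⟨k, hk, rfl⟩))

theorem ind_b_mem (P : Set (ℕ → Bool)) (b : (ℕ → Bool) → Set ℕ) {p : ℕ → Bool} (hp : p ∈ P) :
    ind 𝕜 (b p) ∈ Sp 𝕜 P b :=
  Submodule.le_topologicalClosure _ (Submodule.subset_span (Or.inr ⟨p, hp, rfl⟩))

theorem Sp_apply_zero {P : Set (ℕ → Bool)} {b : (ℕ → Bool) → Set ℕ} (h0 : ∀ p ∈ P, 0 ∉ b p)
    {y : ℕ →ᵇ 𝕜} (hy : y ∈ Sp 𝕜 P b) : y 0 = 0 := by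
  have h := tendsto_of_closure (𝕜 := 𝕜) (fun _ => ((evalCLM 𝕜 0 : (ℕ →ᵇ 𝕜) →L[𝕜] 𝕜) :
    (ℕ →ᵇ 𝕜) →ₗ[𝕜] 𝕜)) 1 (fun n y => by simpa using y.norm_coe_le_norm 0) (gens 𝕜 P b) ?_ y hy
  · exact tendsto_nhds_unique tendsto_const_nhds h
  · rintro _ (⟨k, hk, rfl⟩ | ⟨p, hp, rfl⟩)
    · have : ind 𝕜 {k} 0 = 0 := ind_apply_notMem (by simp; omega)
      simp [this]
    · have : ind 𝕜 (b p) 0 = 0 := ind_apply_notMem (h0 p hp)
      simp [this]

/-- A sign. -/
noncomputable def sg (z : 𝕜) : 𝕜 := (starRingEnd 𝕜 z) / (‖z‖ : 𝕜)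

theorem norm_sg_le (z : 𝕜) : ‖sg z‖ ≤ 1 := by
  unfold sg
  rw [norm_div, RCLike.norm_conj, RCLike.norm_ofReal, abs_norm]
  exact div_self_le_one _

theorem sg_mul (z : 𝕜) : sg z * z = (‖z‖ : 𝕜) := by
  unfold sg
  by_cases hz : z = 0
  · simp [hz]
  · have h1 : (‖z‖ : 𝕜) ≠ 0 := by simpa using hz
    rw [div_mul_eq_mul_div, RCLike.conj_mul]
    field_simp

/-- Functionals on disjoint indicators. -/
theorem sum_norm_le {ι : Type*} (Φ : StrongDual 𝕜 (ℕ →ᵇ 𝕜)) (u : Finset ι) (B : ι → Set ℕ)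
    (hB : ∀ i ∈ u, ∀ j ∈ u, i ≠ j → Disjoint (B i) (B j)) :
    ∑ i ∈ u, ‖Φ (ind 𝕜 (B i))‖ ≤ ‖Φ‖ := by
  have h1 : Φ (∑ i ∈ u, sg (Φ (ind 𝕜 (B i))) • ind 𝕜 (B i)) =
      ((∑ i ∈ u, ‖Φ (ind 𝕜 (B i))‖ : ℝ) : 𝕜) := by
    rw [map_sum]
    push_cast
    refine Finset.sum_congr rfl fun i _ => ?_
    rw [map_smul, smul_eq_mul, sg_mul]
  have h2 : ‖∑ i ∈ u, sg (Φ (ind 𝕜 (B i))) • ind 𝕜 (B i)‖ ≤ 1 := by
    rw [norm_le zero_le_one]
    intro k
    rw [BoundedContinuousFunction.sum_apply]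
    by_cases hk : ∃ i ∈ u, k ∈ B i
    · obtain ⟨i, hi, hki⟩ := hk
      rw [Finset.sum_eq_single i]
      · rw [BoundedContinuousFunction.smul_apply, ind_apply_mem hki, smul_eq_mul, mul_one]
        exact norm_sg_le _
      · intro j hj hji
        have : k ∉ B j := fun h => (Set.disjoint_left.1 (hB i hi j hj hji.symm)) hki h
        rw [BoundedContinuousFunction.smul_apply, ind_apply_notMem this, smul_zero]
      · exact fun h => absurd hi h
    · rw [Finset.sum_eq_zero]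
      · simp
      · intro i hi
        have : k ∉ B i := fun h => hk ⟨i, hi, h⟩
        rw [BoundedContinuousFunction.smul_apply, ind_apply_notMem this, smul_zero]
  have h3 := Φ.le_opNorm (∑ i ∈ u, sg (Φ (ind 𝕜 (B i))) • ind 𝕜 (B i))
  rw [h1, RCLike.norm_ofReal, abs_of_nonneg (Finset.sum_nonneg fun _ _ => norm_nonneg _)] at h3
  refine h3.trans ?_
  calc ‖Φ‖ * _ ≤ ‖Φ‖ * 1 := mul_le_mul_of_nonneg_left h2 (norm_nonneg _)
    _ = ‖Φ‖ := mul_one _

end Gen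

end Pool.Agent.H.MP_906480_an
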