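import Pool.Agent.H.MP_906480_an.Exist

/-!
Uniqueness of expansions in the dual of the space, and nonseparability of the space.
-/

namespace Pool.Agent.H.MP_906480_an

open Filter Topology BoundedContinuousFunction

variable {𝕜 : Type*} [RCLike 𝕜]

theorem sum_Ico_double (g : ℕ → 𝕜) (m d : ℕ) :
    ∑ k ∈ Finset.Ico (2 * m) (2 * (m + d)), g k =
      ∑ k ∈ Finset.Ico m (m + d), (g (2 * k) + g (2 * k + 1)) := by
  induction d with
  | zero => simp
  | succ d ih =>
    rw [← add_assoc, Finset.sum_Ico_succ_top (by omega), ← ih,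
      show 2 * (m + d + 1) = 2 * (m + d) + 1 + 1 by ring,
      Finset.sum_Ico_succ_top (by omega), Finset.sum_Ico_succ_top (by omega)]
    ring

theorem level_sum (a : ℕ → 𝕜) (hadd : ∀ k, 1 ≤ k → a (k - 1) = a (2 * k - 1) + a (2 * k))
    (x : ℕ → 𝕜) (hx : x 0 = 0) (j : ℕ) :
    ∑ i ∈ Finset.range (2 ^ (j + 1) - 1), a i * (x (i + 1) - x ((i + 1) / 2)) =
      ∑ k ∈ Finset.Ico (2 ^ j) (2 ^ (j + 1)), a (k - 1) * x k := by
  have h1 : ∀ n, ∑ i ∈ Finset.range (n - 1), a i * (x (i + 1) - x ((i + 1) / 2)) =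
      ∑ k ∈ Finset.Ico 1 n, a (k - 1) * (x k - x (k / 2)) := by
    intro n
    rw [Finset.sum_Ico_eq_sum_range]
    refine Finset.sum_congr rfl fun i _ => ?_
    rw [Nat.add_sub_cancel_left, add_comm 1 i]
  rw [h1]
  induction j with
  | zero => simp [hx]
  | succ j ih =>
    have h2 : 1 ≤ 2 ^ (j + 1) := Nat.one_le_two_pow
    have h3 : 2 ^ (j + 1) ≤ 2 ^ (j + 1 + 1) := Nat.pow_le_pow_right (by norm_num) (by omega)
    rw [← Finset.sum_Ico_consecutive _ h2 h3, ih]
    have h4 : ∑ k ∈ Finset.Ico (2 ^ (j + 1)) (2 ^ (j + 1 + 1)), a (k - 1) * x (k / 2) =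
        ∑ k ∈ Finset.Ico (2 ^ j) (2 ^ (j + 1)), a (k - 1) * x k := by
      have h5 := sum_Ico_double (fun k => a (k - 1) * x (k / 2)) (2 ^ j) (2 ^ j)
      have h6 : 2 * 2 ^ j = 2 ^ (j + 1) := by ring
      have h7 : 2 ^ j + 2 ^ j = 2 ^ (j + 1) := by ring
      have h8 : 2 * 2 ^ (j + 1) = 2 ^ (j + 1 + 1) := by ring
      rw [h7, h6, h8] at h5
      rw [h5]
      refine Finset.sum_congr rfl fun k hk => ?_
      have hk1 : 1 ≤ k := le_trans Nat.one_le_two_pow (Finset.mem_Ico.1 hk).1
      rw [hadd k hk1]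
      have e1 : 2 * k / 2 = k := by omega
      have e2 : (2 * k + 1) / 2 = k := by omega
      have e3 : 2 * k + 1 - 1 = 2 * k := by omega
      simp only [e1, e2, e3]
      ring
    simp only [mul_sub]
    rw [Finset.sum_sub_distrib, h4]
    ring

theorem unique_coef {P : Set (ℕ → Bool)} {b : (ℕ → Bool) → Set ℕ} (hcore : Core P b)
    (a : ℕ → 𝕜) (ha : ∀ x : Sp 𝕜 P b,
      Tendsto (fun n => ∑ i ∈ Finset.range n, a i * fF 𝕜 P b i x) atTop (𝓝 0)) : a = 0 := by
  classical
  obtain ⟨-, hbr, hb0, had, hdet⟩ := hcore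
  -- additivity
  have hadd : ∀ k, 1 ≤ k → a (k - 1) = a (2 * k - 1) + a (2 * k) := by
    intro k hk
    have h1 := ha ⟨ind 𝕜 {k}, ind_single_mem P b hk⟩
    have h2 : Tendsto (fun n => ∑ i ∈ Finset.range n,
        a i * fF 𝕜 P b i ⟨ind 𝕜 {k}, ind_single_mem P b hk⟩) atTop
        (𝓝 (a (k - 1) - (a (2 * k - 1) + a (2 * k)))) := by
      refine tendsto_const_nhds.congr' ?_
      filter_upwards [eventually_ge_atTop (2 * k + 1)] with n hn
      have h3 : ∀ i, a i * fF 𝕜 P b i ⟨ind 𝕜 {k}, ind_single_mem P b hk⟩ =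
          (if i = k - 1 then a i else 0) - ((if i = 2 * k - 1 then a i else 0) +
            (if i = 2 * k then a i else 0)) := by
        intro i
        rw [fF_apply]
        simp only [ind_apply, Set.indicator_apply, Set.mem_singleton_iff]
        by_cases h4 : i + 1 = k
        · rw [if_pos h4, if_neg (by omega), if_pos (by omega), if_neg (by omega),
            if_neg (by omega)]
          ring
        · rw [if_neg h4, if_neg (by omega : ¬ i = k - 1)]
          by_cases h5 : i = 2 * k - 1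
          · rw [if_pos (by omega), if_pos h5, if_neg (by omega)]
            ring
          · rw [if_neg h5]
            by_cases h6 : i = 2 * k
            · rw [if_pos (by omega), if_pos h6]
              ring
            · rw [if_neg (by omega), if_neg h6]
              ring
      simp only [h3]
      rw [Finset.sum_sub_distrib, Finset.sum_add_distrib, Finset.sum_ite_eq', Finset.sum_ite_eq',
        Finset.sum_ite_eq', if_pos (by simp; omega), if_pos (by simp; omega),
        if_pos (by simp; omega)]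
    exact sub_eq_zero.1 (tendsto_nhds_unique h2 h1)
  let T : ℕ → StrongDual 𝕜 (Sp 𝕜 P b) := fun n => ∑ i ∈ Finset.range n, a i • fF 𝕜 P b i
  have hT : ∀ n x, T n x = ∑ i ∈ Finset.range n, a i * fF 𝕜 P b i x := by
    intro n x
    simp only [T]
    rw [_root_.sum_apply]
    rfl
  have hlev : ∀ j (x : Sp 𝕜 P b), T (2 ^ (j + 1) - 1) x =
      ∑ k ∈ Finset.Ico (2 ^ j) (2 ^ (j + 1)), a (k - 1) * (x : ℕ →ᵇ 𝕜) k := by
    intro j x
    rw [hT]
    exact level_sum a hadd _ (Sp_apply_zero hb0 x.2) j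
  have hbv : ∃ M, ∀ j, ∑ k ∈ Finset.Ico (2 ^ j) (2 ^ (j + 1)), ‖a (k - 1)‖ ≤ M := by
    have h1 : ∀ x : Sp 𝕜 P b, ∃ C, ∀ n, ‖T n x‖ ≤ C := by
      intro x
      obtain ⟨C, hC⟩ := (ha x).norm.bddAbove_range
      refine ⟨C, fun n => ?_⟩
      rw [hT]
      exact hC ⟨n, rfl⟩
    obtain ⟨M, hM⟩ := banach_steinhaus h1
    refine ⟨M, fun j => ?_⟩
    obtain ⟨Φ, hΦ, hn⟩ := exists_extension_norm_eq _ (T (2 ^ (j + 1) - 1))
    refine le_trans ?_ (hM (2 ^ (j + 1) - 1))
    rw [← hn]
    refine le_trans (le_of_eq ?_) (sum_norm_le Φ (Finset.Ico (2 ^ j) (2 ^ (j + 1)))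
      (fun k => {k}) ?_)
    · refine Finset.sum_congr rfl fun k hk => ?_
      have hk1 : 1 ≤ k := le_trans Nat.one_le_two_pow (Finset.mem_Ico.1 hk).1
      have h2 := hΦ ⟨ind 𝕜 {k}, ind_single_mem P b hk1⟩
      rw [hlev] at h2
      simp only at h2
      rw [h2, Finset.sum_eq_single k]
      · rw [ind_apply_mem (by simp), mul_one]
      · intro k' _ hne
        rw [ind_apply_notMem (by simpa using hne), mul_zero]
      · intro h
        exact absurd hk h
    · intro i _ i' _ hne
      simpa using hne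
  have hlim : ∀ p ∈ P, Tendsto (fun j => ∑ k ∈ Finset.Ico (2 ^ j) (2 ^ (j + 1)),
      (b p).indicator (fun k => a (k - 1)) k) atTop (𝓝 0) := by
    intro p hp
    have h1 : Tendsto (fun j : ℕ => 2 ^ (j + 1) - 1) atTop atTop := by
      refine tendsto_atTop_mono (fun j => ?_) tendsto_id
      have : j + 1 < 2 ^ (j + 1) := Nat.lt_two_pow_self
      simp only [id]
      omega
    have h2 := (ha ⟨ind 𝕜 (b p), ind_b_mem P b hp⟩).comp h1
    refine h2.congr fun j => ?_
    simp only [Function.comp]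
    rw [← hT, hlev]
    refine Finset.sum_congr rfl fun k _ => ?_
    simp only [ind_apply]
    by_cases hk : k ∈ b p
    · rw [Set.indicator_of_mem hk, Set.indicator_of_mem hk, mul_one]
    · rw [Set.indicator_of_notMem hk, Set.indicator_of_notMem hk, mul_zero]
  -- real and imaginary parts
  have hpart : ∀ (r : 𝕜 →+ ℝ), Continuous r → (∀ z, |r z| ≤ ‖z‖) → ∀ k, 1 ≤ k →
      r (a (k - 1)) = 0 := by
    intro r hr hr2
    refine hdet (fun k => r (a (k - 1))) ?_ ?_ ?_
    · intro k hk
      rw [hadd k hk, map_add]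
      have e3 : 2 * k + 1 - 1 = 2 * k := by omega
      rw [e3]
    · obtain ⟨M, hM⟩ := hbv
      refine ⟨M, fun j => le_trans (Finset.sum_le_sum fun k _ => hr2 _) (hM j)⟩
    · intro p hp
      have h1 := (hr.tendsto 0).comp (hlim p hp)
      rw [map_zero] at h1
      refine h1.congr fun j => ?_
      simp only [Function.comp]
      rw [map_sum]
      refine Finset.sum_congr rfl fun k _ => ?_
      by_cases hk : k ∈ b p
      · rw [Set.indicator_of_mem hk, Set.indicator_of_mem hk]
      · rw [Set.indicator_of_notMem hk, Set.indicator_of_notMem hk, map_zero]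
  funext i
  have h1 := hpart RCLike.re RCLike.continuous_re RCLike.abs_re_le_norm (i + 1) (by omega)
  have h2 := hpart RCLike.im RCLike.continuous_im RCLike.abs_im_le_norm (i + 1) (by omega)
  rw [Nat.add_sub_cancel] at h1 h2
  apply RCLike.ext
  · simpa using h1
  · simpa using h2

theorem not_separable {P : Set (ℕ → Bool)} {b : (ℕ → Bool) → Set ℕ} (hcore : Core P b) :
    ¬ TopologicalSpace.SeparableSpace (Sp 𝕜 P b) := by
  obtain ⟨hP, hbr, hb0, had, -⟩ := hcore
  intro hsep
  apply hP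
  let e : P → Sp 𝕜 P b := fun p => ⟨ind 𝕜 (b p), ind_b_mem P b p.2⟩
  have h1 : (Set.univ : Set P).Countable := by
    refine Set.PairwiseDisjoint.countable_of_isOpen (s := fun p => Metric.ball (e p) (1 / 2))
      ?_ (fun p _ => Metric.isOpen_ball) (fun p _ => ⟨e p, Metric.mem_ball_self (by norm_num)⟩)
    intro p _ q _ hpq
    rw [Function.onFun, Set.disjoint_left]
    intro x hx1 hx2
    rw [Metric.mem_ball] at hx1 hx2
    have h2 : dist (e p) (e q) < 1 := by
      calc dist (e p) (e q) ≤ dist (e p) x + dist x (e q) := dist_triangle _ _ _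
        _ < 1 := by rw [dist_comm (e p) x]; linarith
    have hinf : (Set.range (node p)).Infinite :=
      Set.infinite_range_of_injective (node_mono (p : ℕ → Bool)).injective
    have hfin := had p p.2 q q.2 (fun h => hpq (Subtype.ext h))
    obtain ⟨k, hk1, hk2⟩ := (hinf.sdiff hfin).nonempty
    obtain ⟨j, rfl⟩ := hk1
    have h3 : node p j ∈ b p := hbr p p.2 j
    have h4 : node p j ∉ b q := fun h => hk2 ⟨h3, h⟩
    have h5 := (e p - e q : Sp 𝕜 P b).1.norm_coe_le_norm (node p j)
    have h6 : (e p - e q : Sp 𝕜 P b).1 (node p j) = 1 := by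
      show (ind 𝕜 (b p) - ind 𝕜 (b q)) (node p j) = 1
      rw [BoundedContinuousFunction.sub_apply, ind_apply_mem h3, ind_apply_notMem h4, sub_zero]
    rw [h6, norm_one] at h5
    rw [dist_eq_norm] at h2
    exact absurd h2 (not_lt.2 h5)
  have h2 := Set.countable_univ_iff.1 h1
  exact Set.countable_coe_iff.1 h2

theorem isWeakStarBasis_fF {P : Set (ℕ → Bool)} {b : (ℕ → Bool) → Set ℕ} (hcore : Core P b) :
    IsWeakStarBasis (fF 𝕜 P b) := by
  intro φ
  obtain ⟨a, ha⟩ := exists_coef hcore φ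
  refine ⟨a, ha, fun a' ha' => ?_⟩
  have h1 : a' - a = 0 := by
    apply unique_coef hcore
    intro x
    have := (ha' x).sub (ha x)
    rw [sub_self] at this
    refine this.congr fun n => ?_
    rw [← Finset.sum_sub_distrib]
    refine Finset.sum_congr rfl fun i _ => ?_
    rw [Pi.sub_apply]
    ring
  exact sub_eq_zero.1 h1

end Pool.Agent.H.MP_906480_an
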